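import Mathlib

/-!
# Small numbers have a binomial coefficient which `m` does not divide
-/

set_option autoImplicit false

namespace Pool.Agent.H88.PG

/-- `p ^ e` is the exact power of `p` in `x`: then `p` does not divide `C(x, p ^ e)`. -/
theorem not_dvd_choose_pow {p : ℕ} (hp : p.Prime) : ∀ (e y : ℕ), ¬ p ∣ y →
    ¬ p ∣ (p ^ e * y).choose (p ^ e) := by
  have := Fact.mk hp
  intro e
  induction e with
  | zero =>
    intro y hy
    rw [pow_zero, one_mul, Nat.choose_one_right]
    exact hy
  | succ e ih =>
    intro y hy h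
    have h1 := Choose.choose_modEq_choose_mod_mul_choose_div_nat (p := p) (n := p ^ (e + 1) * y)
      (k := p ^ (e + 1))
    have e1 : p ^ (e + 1) * y = p * (p ^ e * y) := by
      rw [pow_succ]
      ring
    have e2 : p ^ (e + 1) = p * p ^ e := by
      rw [pow_succ]
      ring
    rw [e1, e2, Nat.mul_mod_right, Nat.mul_mod_right, Nat.mul_div_cancel_left _ hp.pos,
      Nat.mul_div_cancel_left _ hp.pos, Nat.choose_self, one_mul] at h1
    rw [e1, e2] at h
    exact ih y hy ((Nat.modEq_zero_iff_dvd).1 (h1.symm.trans ((Nat.modEq_zero_iff_dvd).2 h)))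

/-- If `0 < x < k ^ r`, `r` the number of prime divisors of `m`, then some `C(x, i)`, `0 < i < k`, is not
divisible by `m`. -/
theorem exists_not_dvd_choose {m x k : ℕ} (hx : 0 < x) (hk : x < k ^ m.primeFactors.card) :
    ∃ i, 0 < i ∧ i < k ∧ ¬ m ∣ x.choose i := by
  by_contra hcon
  push Not at hcon
  have h1 : ∀ p ∈ m.primeFactors, k ≤ p ^ x.factorization p := by
    intro p hp
    have hpp := Nat.prime_of_mem_primeFactors hp
    by_contra hlt
    push Not at hlt
    have h2 := hcon (p ^ x.factorization p) (pow_pos hpp.pos _) hlt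
    have h3 : p ∣ x.choose (p ^ x.factorization p) := (Nat.dvd_of_mem_primeFactors hp).trans h2
    have h4 : ¬ p ∣ x / p ^ x.factorization p := Nat.not_dvd_ordCompl hpp hx.ne'
    have h5 := not_dvd_choose_pow hpp (x.factorization p) _ h4
    rw [Nat.ordProj_mul_ordCompl_eq_self] at h5
    exact h5 h3
  have h2 : k ^ m.primeFactors.card ≤ ∏ p ∈ m.primeFactors, p ^ x.factorization p := by
    rw [← Finset.prod_const]
    exact Finset.prod_le_prod' h1
  have h3 : ∏ p ∈ m.primeFactors, p ^ x.factorization p ∣ x := by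
    refine Finset.prod_dvd_of_isRelPrime ?_ ?_
    · intro p hp q hq hpq
      exact Nat.coprime_iff_isRelPrime.1 (Nat.coprime_pow_primes _ _
        (Nat.prime_of_mem_primeFactors hp) (Nat.prime_of_mem_primeFactors hq) hpq)
    · intro p _
      exact Nat.ordProj_dvd x p
  exact absurd (Nat.le_of_dvd hx h3) (by omega)

end Pool.Agent.H88.PG
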