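import Mathlib

/-!
# Binomial coefficients modulo `m` of two numbers
-/

set_option autoImplicit false

namespace Pool.Agent.H88.PG

open Finset

/-- If `m` divides `C(d, i)` for `0 < i < k` then `C(N + d, k)` is congruent to
`C(N, k) + C(d, k)`. -/
theorem choose_add_cast {m N d k : ℕ} (hk : 0 < k) (h : ∀ i, 0 < i → i < k → m ∣ d.choose i) :
    (((N + d).choose k : ℕ) : ZMod m) = (N.choose k : ℕ) + (d.choose k : ℕ) := by
  rw [Nat.add_choose_eq, Nat.cast_sum]
  have h1 : ∀ ij ∈ antidiagonal k, ij ≠ (k, 0) → ij ≠ (0, k) →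
      ((N.choose ij.1 * d.choose ij.2 : ℕ) : ZMod m) = 0 := by
    rintro ⟨a, b⟩ hab h2 h3
    rw [HasAntidiagonal.mem_antidiagonal] at hab
    have hab' : a + b = k := hab
    have hb : 0 < b := by
      rcases Nat.eq_zero_or_pos b with rfl | hb
      · exact absurd (by rw [← hab', add_zero]) h2
      · exact hb
    have ha : 0 < a := by
      rcases Nat.eq_zero_or_pos a with rfl | ha
      · exact absurd (by rw [← hab', zero_add]) h3
      · exact ha
    rw [ZMod.natCast_eq_zero_iff]
    exact (h b hb (by omega)).mul_left _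
  have hne : ((k, 0) : ℕ × ℕ) ≠ (0, k) := by
    intro e
    rw [Prod.mk.injEq] at e
    omega
  have hsub : ({(k, 0), (0, k)} : Finset (ℕ × ℕ)) ⊆ antidiagonal k := by
    intro x hx
    rw [mem_insert, mem_singleton] at hx
    rcases hx with rfl | rfl
    · simp
    · simp
  rw [← sum_subset hsub fun x hx hx2 => by
    rw [mem_insert, mem_singleton, not_or] at hx2
    exact h1 x hx hx2.1 hx2.2]
  rw [sum_insert (by rw [mem_singleton]; exact hne), sum_singleton]
  simp

/-- Some binomial coefficient distinguishes two numbers whose difference has a binomial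
coefficient which `m` does not divide. -/
theorem exists_choose_ne {m N n k : ℕ} (hN : N ≤ n)
    (h : ∃ i, 0 < i ∧ i < k ∧ ¬ m ∣ (n - N).choose i) :
    ∃ i, 0 < i ∧ i < k ∧ ((n.choose i : ℕ) : ZMod m) ≠ (N.choose i : ℕ) := by
  classical
  obtain ⟨h1, h2, h3⟩ := Nat.find_spec h
  refine ⟨Nat.find h, h1, h2, ?_⟩
  intro h4
  have h5 : ∀ i, 0 < i → i < Nat.find h → m ∣ (n - N).choose i := by
    intro i hi hik
    by_contra hc
    exact Nat.find_min h hik ⟨hi, by omega, hc⟩
  have h6 := choose_add_cast (N := N) h1 h5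
  rw [show N + (n - N) = n by omega, h4] at h6
  have h7 : (((n - N).choose (Nat.find h) : ℕ) : ZMod m) = 0 := by
    have h8 := h6
    rwa [left_eq_add] at h8
  rw [ZMod.natCast_eq_zero_iff] at h7
  exact h3 h7

end Pool.Agent.H88.PG
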