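import Pool.Agent.H88.PG.Zer
import Pool.Agent.H31.PH.Com

/-!
# More pigeons than occupied holes
-/

set_option autoImplicit false

namespace Pool.Agent.H88.PG

open FirstOrder FirstOrder.Language Pool.H93.SY Pool.H31.SY Pool.H31.PH Pool.Agent.H88.SY
open scoped Pointwise

variable {ψ : phpL.Sentence} {s n K : ℕ}

/-- The node `q A`. -/
def ql (ψ : phpL.Sentence) (A : Sl (Vx s n) K) (b : Bool) : Lit (FN ψ s n K) := ⟨old (.q A), b⟩

/-- The lines. -/
def FB (ψ : phpL.Sentence) {s n K : ℕ} (N : ℕ) :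
    Fin 8 × Sl (Vx s n) K × Sl (Ed s n) K → Set (Lit (FN ψ s n K))
  | (0, _, h) => {yl ψ n (hs h) true, tn ψ s n K s N, Ml ψ h false}
  | (1, _, h) => {yl ψ n (hs h) false, tn ψ s n K s N, Ml ψ h false}
  | (2, _, h) => {tn ψ s n K s N, Ml ψ h false}
  | (3, A, h) => {Ml ψ h false, ql ψ A true, tn ψ s n K s N}
  | (4, A, _) => {ql ψ A true, tn ψ s n K s N}
  | (5, A, _) => {ql ψ A false, tn ψ s n K s N} ∪ mapL old '' TH A
  | (6, A, _) => {ql ψ A false, tn ψ s n K s N}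
  | (7, _, _) => {tn ψ s n K s N}

/-- The condition. -/
def JB (s n K N : ℕ) : Set (Fin 8 × Sl (Vx s n) K × Sl (Ed s n) K) :=
  {x | (∀ v ∈ x.2.1.set, sd v = true) ∧ x.2.1.set.card = N + 1 ∧
    (x.1.val < 4 → x.2.2 ∈ HA x.2.1.set)}

theorem FB_smul [HasSits ψ] (σ : Equiv.Perm (Fin n)) (N : ℕ) (k : Fin 8) (A : Sl (Vx s n) K)
    (h : Sl (Ed s n) K) : FB ψ N (k, σ • A, σ • h) = σ • FB ψ N (k, A, h) := by
  have e1 : ∀ b, σ • Ml ψ h b = Ml ψ (σ • h) b := fun _ => rfl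
  have e2 : ∀ b, σ • ql ψ A b = ql ψ (σ • A) b := fun _ => rfl
  have e3 : ∀ (B : Sl (Fin s) K) b, σ • yl ψ n B b = yl ψ n B b := fun B b => fl_yl B b σ
  have e4 : σ • tn ψ s n K s N = tn ψ s n K s N := rfl
  match k with
  | 0 =>
    show {yl ψ n (hs (σ • h)) true, tn ψ s n K s N, Ml ψ (σ • h) false} = σ • _
    unfold FB
    rw [smul_triple, e3, e4, e1, hs_smul]
  | 1 =>
    show {yl ψ n (hs (σ • h)) false, tn ψ s n K s N, Ml ψ (σ • h) false} = σ • _
    unfold FB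
    rw [smul_triple, e3, e4, e1, hs_smul]
  | 2 =>
    unfold FB
    rw [smul_pair, e4, e1]
  | 3 =>
    unfold FB
    rw [smul_triple, e1, e2, e4]
  | 4 =>
    unfold FB
    rw [smul_pair, e2, e4]
  | 5 =>
    show {ql ψ (σ • A) false, tn ψ s n K s N} ∪ mapL old '' TH (σ • A) = σ • _
    unfold FB
    rw [Set.smul_set_union, smul_pair, e2, e4, TH_smul,
      mapL_image_smul (old : Nx ψ s n K → FN ψ s n K) (fun _ _ => rfl)]
  | 6 =>
    unfold FB
    rw [smul_pair, e2, e4]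
  | 7 =>
    unfold FB
    rw [Set.smul_set_singleton, e4]

variable [HasSits ψ] {m : ℕ}
variable {D : Set (Atom phpL (Fin s ⊕ Fin n) × Bool)} {Ls : Set (Set (Lit (FN ψ s n K)))}

theorem case_b (hg : GoodD ψ D (fc ψ m s n K) Ls) {N : ℕ} (hNK : N + 1 ≤ K) (hNs : N ≤ s)
    (hNn : N + 1 ≤ n)
    (hM : ∀ h : Sl (Ed s n) K, Mt h.set → {yl ψ n (hs h) true, Ml ψ h false} ∈ Ls)
    (hbl : ∀ B : Sl (Fin s) K, N < B.set.card → bl ψ s n K s N B ∈ Ls)
    (hth : ∀ A : Sl (Vx s n) K, (∀ v ∈ A.set, sd v = true) →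
      (mapL old '' TH A : Set (Lit (FN ψ s n K))) ∈ Ls) :
    DR ψ D (C := fc ψ m s n K) Ls
      (8 * (Nat.card (Sl (Vx s n) K) * Nat.card (Sl (Ed s n) K) + 1)) {tn ψ s n K s N} := by
  have key : GoodD ψ D (fc ψ m s n K) (Ls ∪ FB ψ N '' JB s n K N) := by
    refine goodD_family (C := fc ψ m s n K) (FB ψ N) (JB s n K N) (fun x => x.1.val) hg ?_ ?_
    · rintro σ ⟨k, A, h⟩ ⟨hA, hc, hh⟩
      exact ⟨(k, σ • A, σ • h), ⟨side_smul σ hA, (card_smul_sl σ A).trans hc,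
        fun hk => (ha_smul σ).2 (hh hk)⟩, FB_smul σ N k A h⟩
    · rintro ⟨k, A, h⟩ ⟨hA, hc, hh⟩
      have hA' : ∀ v ∈ A.set, sd v = true := hA
      have hc' : A.set.card = N + 1 := hc
      match k with
      | 0 =>
        have h1 : h ∈ HA A.set := hh (show (0 : ℕ) < 4 by norm_num)
        refine .weak (Or.inl (hM h h1.2.1)) ?_
        rintro x (rfl | rfl)
        · exact Or.inl rfl
        · exact Or.inr (Or.inr rfl)
      | 1 =>
        have h1 : h ∈ HA A.set := hh (show (1 : ℕ) < 4 by norm_num)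
        have h2 : N < (hs h).set.card := by
          rw [card_hs h1.2.1, h1.1, hc']
          exact Nat.lt_succ_self N
        refine .weak (Or.inl (hbl (hs h) h2)) ?_
        rintro x (rfl | rfl)
        · exact Or.inr (Or.inl rfl)
        · exact Or.inl rfl
      | 2 =>
        have h1 : h ∈ HA A.set := hh (show (2 : ℕ) < 4 by norm_num)
        refine .cut (a := (old (.y (vb n (hs h))) : FN ψ s n K))
          (Or.inr ⟨(0, A, h), ⟨hA, hc, fun _ => h1⟩, ?_, rfl⟩)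
          (Or.inr ⟨(1, A, h), ⟨hA, hc, fun _ => h1⟩, ?_, rfl⟩)
        · show (0 : ℕ) < 2
          norm_num
        · show (1 : ℕ) < 2
          norm_num
      | 3 =>
        have h1 : h ∈ HA A.set := hh (show (3 : ℕ) < 4 by norm_num)
        refine .weak (Δ := {tn ψ s n K s N, Ml ψ h false})
          (Or.inr ⟨(2, A, h), ⟨hA, hc, fun _ => h1⟩, ?_, rfl⟩) ?_
        · show (2 : ℕ) < 3
          norm_num
        · rintro x (rfl | rfl)
          · exact Or.inr (Or.inr rfl)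
          · exact Or.inl rfl
      | 4 =>
        refine .andI (a := (old (.q A) : FN ψ s n K))
          (S := mapL old '' {x | ∃ h ∈ HA A.set, x = ⟨.M h, false⟩}) rfl (Or.inl rfl) ?_
        rintro _ ⟨_, ⟨g, hg1, rfl⟩, rfl⟩
        refine Or.inr ⟨(3, A, g), ⟨hA, hc, fun _ => hg1⟩, ?_, rfl⟩
        show (3 : ℕ) < 4
        norm_num
      | 5 =>
        exact .weak (Or.inl (hth A hA')) Set.subset_union_right
      | 6 =>
        refine .andE (a := (old (.q A) : FN ψ s n K))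
          (S := mapL old '' {x | ∃ h ∈ HA A.set, x = ⟨.M h, false⟩}) rfl (Or.inl rfl)
          (Or.inr ⟨(5, A, h), ⟨hA, hc, fun hk => absurd hk (by norm_num)⟩, ?_, ?_⟩)
        · show (5 : ℕ) < 6
          norm_num
        · have h1 : Lit.neg '' (mapL old '' {x : Lit (Nx ψ s n K) | ∃ h ∈ HA A.set,
              x = ⟨.M h, false⟩} : Set (Lit (FN ψ s n K))) = mapL old '' TH A := by
            ext x
            constructor
            · rintro ⟨_, ⟨_, ⟨g, hg1, rfl⟩, rfl⟩, rfl⟩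
              exact ⟨⟨.M g, true⟩, ⟨g, hg1, rfl⟩, rfl⟩
            · rintro ⟨_, ⟨g, hg1, rfl⟩, rfl⟩
              exact ⟨⟨old (.M g), false⟩, ⟨⟨.M g, false⟩, ⟨g, hg1, rfl⟩, rfl⟩, rfl⟩
          exact congrArg (fun T => ({ql ψ A false, tn ψ s n K s N} : Set (Lit (FN ψ s n K))) ∪ T) h1
      | 7 =>
        refine .cut (a := (old (.q A) : FN ψ s n K))
          (Or.inr ⟨(4, A, h), ⟨hA, hc, fun hk => absurd hk (by norm_num)⟩, ?_, rfl⟩)
          (Or.inr ⟨(6, A, h), ⟨hA, hc, fun hk => absurd hk (by norm_num)⟩, ?_, rfl⟩)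
        · show (4 : ℕ) < 7
          norm_num
        · show (6 : ℕ) < 7
          norm_num
  have h1 := card_side s n hNK true
  have h2 : 0 < (if true then n else s).choose (N + 1) := Nat.choose_pos hNn
  rw [← h1] at h2
  obtain ⟨A, hA, hAc⟩ := Set.nonempty_of_ncard_ne_zero h2.ne'
  refine ⟨FB ψ N '' JB s n K N, key, Or.inr ⟨(7, A, ⟨∅, Nat.zero_le _⟩),
    ⟨hA, hAc, fun hk => absurd hk (by norm_num)⟩, rfl⟩, ?_⟩
  refine (ncard_family (C := fc ψ m s n K) (FB ψ N) (JB s n K N)).trans ?_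
  rw [Nat.card_prod, Nat.card_prod, Nat.card_eq_fintype_card (α := Fin 8), Fintype.card_fin]
  omega

end Pool.Agent.H88.PG
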