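import Pool.Agent.H31.PH.Fam

/-!
# Derivations of lines which are fixed by the permutations

`DR Ls r Γ`: the line `Γ` can be derived from the lines in `Ls` with at most `r` new lines.
-/

set_option autoImplicit false

namespace Pool.Agent.H88.PG

open FirstOrder FirstOrder.Language Pool.H93.SY Pool.H31.SY Pool.H31.PH
open scoped Pointwise

variable {L : FirstOrder.Language.{0, 0}} [L.IsRelational]
variable {ψ : L.Sentence} {m s n : ℕ} {D : Set (Atom L (Fin s ⊕ Fin n) × Bool)}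
  {C : Circuit L m s n} {Ls : Set (Set (Lit C.N))}

open Classical in
theorem goodD_union {A B : Set (Set (Lit C.N))} (hA : GoodD ψ D C A) (hB : GoodD ψ D C B) :
    GoodD ψ D C (A ∪ B) := by
  obtain ⟨hc, o, ho⟩ := hA
  obtain ⟨hc', o', ho'⟩ := hB
  refine ⟨?_, ?_⟩
  · rintro σ Γ (h | h)
    · exact Or.inl (hc σ Γ h)
    · exact Or.inr (hc' σ Γ h)
  · obtain ⟨b, hb⟩ : ∃ b, ∀ Γ, o Γ ≤ b := by
      obtain ⟨b, hb⟩ := Finite.bddAbove_range o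
      exact ⟨b, fun Γ => hb ⟨Γ, rfl⟩⟩
    refine ⟨fun Γ => if Γ ∈ A then o Γ else b + 1 + o' Γ, ?_⟩
    intro Γ hΓ
    by_cases h1 : Γ ∈ A
    · refine step_more subset_rfl ?_ (ho Γ h1)
      rintro Δ ⟨h2, h3⟩
      refine ⟨Or.inl h2, ?_⟩
      simp only [if_pos h1, if_pos h2]
      exact h3
    · refine step_more subset_rfl ?_ (ho' Γ (hΓ.resolve_left h1))
      rintro Δ ⟨h2, h3⟩
      refine ⟨Or.inr h2, ?_⟩
      by_cases h4 : Δ ∈ A
      · simp only [if_neg h1, if_pos h4]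
        have := hb Δ
        omega
      · simp only [if_neg h1, if_neg h4]
        omega

/-- The line can be derived with at most `r` new lines. -/
def DR (ψ : L.Sentence) (D : Set (Atom L (Fin s ⊕ Fin n) × Bool)) {C : Circuit L m s n}
    (Ls : Set (Set (Lit C.N))) (r : ℕ) (Γ : Set (Lit C.N)) : Prop :=
  ∃ Q : Set (Set (Lit C.N)), GoodD ψ D C (Ls ∪ Q) ∧ Γ ∈ Ls ∪ Q ∧ Q.ncard ≤ r

/-- The line is fixed by the permutations. -/
def Fx {C : Circuit L m s n} (Γ : Set (Lit C.N)) : Prop := ∀ σ : Equiv.Perm (Fin n), σ • Γ = Γ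

theorem DR.base (hg : GoodD ψ D C Ls) {Γ : Set (Lit C.N)} (h : Γ ∈ Ls) : DR ψ D Ls 0 Γ :=
  ⟨∅, by rwa [Set.union_empty], Or.inl h, by rw [Set.ncard_empty]⟩

theorem DR.congr {r : ℕ} {Γ Γ' : Set (Lit C.N)} (h : DR ψ D Ls r Γ) (e : Γ = Γ') :
    DR ψ D Ls r Γ' := e ▸ h

theorem DR.mono {r r' : ℕ} {Γ : Set (Lit C.N)} (h : DR ψ D Ls r Γ) (hr : r ≤ r') :
    DR ψ D Ls r' Γ := by
  obtain ⟨Q, h1, h2, h3⟩ := h
  exact ⟨Q, h1, h2, h3.trans hr⟩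

theorem DR.more {r : ℕ} {Γ : Set (Lit C.N)} {Ls' : Set (Set (Lit C.N))}
    (hg : GoodD ψ D C Ls') (hl : Ls ⊆ Ls') (h : DR ψ D Ls r Γ) : DR ψ D Ls' r Γ := by
  obtain ⟨Q, h1, h2, h3⟩ := h
  refine ⟨Q, ?_, ?_, h3⟩
  · have h4 := goodD_union hg h1
    rwa [← Set.union_assoc, Set.union_eq_self_of_subset_right hl] at h4
  · exact h2.elim (fun h => Or.inl (hl h)) Or.inr

/-- Many lines at once. -/
theorem DR.many {I : Type} [Finite I] {r : ℕ} (hg : GoodD ψ D C Ls) (F : I → Set (Lit C.N))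
    (J : Set I) (h : ∀ i ∈ J, DR ψ D Ls r (F i)) :
    ∃ Q : Set (Set (Lit C.N)), GoodD ψ D C (Ls ∪ Q) ∧ (∀ i ∈ J, F i ∈ Ls ∪ Q) ∧
      Q.ncard ≤ r * J.ncard := by
  classical
  have hJ : J.Finite := Set.toFinite J
  induction J, hJ using Set.Finite.induction_on with
  | empty =>
    refine ⟨∅, by rwa [Set.union_empty], fun i hi => absurd hi (Set.notMem_empty _), ?_⟩
    rw [Set.ncard_empty]
    exact Nat.zero_le _
  | @insert a J ha hJ ih =>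
    obtain ⟨Q, h1, h2, h3⟩ := ih fun i hi => h i (Or.inr hi)
    obtain ⟨Q', h1', h2', h3'⟩ := h a (Or.inl rfl)
    refine ⟨Q ∪ Q', ?_, ?_, ?_⟩
    · have h4 := goodD_union h1 h1'
      have e : (Ls ∪ Q) ∪ (Ls ∪ Q') = Ls ∪ (Q ∪ Q') := by
        ext x
        simp only [Set.mem_union]
        tauto
      rwa [e] at h4
    · rintro i (rfl | hi)
      · exact h2'.elim Or.inl fun h => Or.inr (Or.inr h)
      · exact (h2 i hi).elim Or.inl fun h => Or.inr (Or.inl h)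
    · rw [Set.ncard_insert_of_notMem ha hJ]
      refine (Set.ncard_union_le _ _).trans ?_
      rw [mul_add, mul_one]
      exact Nat.add_le_add h3 h3'

/-- One more step: the premises are the lines `F i`, `i ∈ J`. -/
theorem DR.step {I : Type} [Finite I] {r : ℕ} (hg : GoodD ψ D C Ls) (F : I → Set (Lit C.N))
    (J : Set I) (h : ∀ i ∈ J, DR ψ D Ls r (F i)) {Γ : Set (Lit C.N)} (hΓ : Fx Γ)
    (hs : Step ψ D C (F '' J) Γ) : DR ψ D Ls (r * J.ncard + 1) Γ := by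
  obtain ⟨Q, h1, h2, h3⟩ := DR.many hg F J h
  refine ⟨Q ∪ {Γ}, ?_, Or.inr (Or.inr rfl), ?_⟩
  · have h4 := goodD_family (fun _ : Unit => Γ) {()} (fun _ => 0) h1 (fun σ _ _ => ⟨(), rfl, (hΓ σ).symm⟩)
      (fun _ _ => step_more subset_rfl (by
        rintro _ ⟨i, hi, rfl⟩
        exact Or.inl (h2 i hi)) hs)
    have e : (fun _ : Unit => Γ) '' {()} = {Γ} := by
      rw [Set.image_singleton]
    rwa [e, Set.union_assoc] at h4
  · refine (Set.ncard_union_le _ _).trans ?_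
    rw [Set.ncard_singleton]
    exact Nat.add_le_add_right h3 1

theorem DR.step0 (hg : GoodD ψ D C Ls) {Γ : Set (Lit C.N)} (hΓ : Fx Γ)
    (hs : Step ψ D C ∅ Γ) : DR ψ D Ls 1 Γ := by
  have h := DR.step (r := 0) hg (fun _ : Unit => Γ) ∅ (fun i hi => absurd hi (Set.notMem_empty _))
    hΓ (by rwa [Set.image_empty])
  rwa [Set.ncard_empty, mul_zero, zero_add] at h

theorem DR.step1 {r : ℕ} (hg : GoodD ψ D C Ls) {Δ Γ : Set (Lit C.N)} (h : DR ψ D Ls r Δ)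
    (hΓ : Fx Γ) (hs : Step ψ D C {Δ} Γ) : DR ψ D Ls (r + 1) Γ := by
  have h := DR.step (r := r) hg (fun _ : Unit => Δ) {()} (fun _ _ => h)
    hΓ (by rwa [Set.image_singleton])
  rwa [Set.ncard_singleton, mul_one] at h

theorem DR.step2 {r r' : ℕ} (hg : GoodD ψ D C Ls) {Δ Δ' Γ : Set (Lit C.N)} (h : DR ψ D Ls r Δ)
    (h' : DR ψ D Ls r' Δ') (hΓ : Fx Γ) (hs : Step ψ D C {Δ, Δ'} Γ) :
    DR ψ D Ls (r + r' + 1) Γ := by
  obtain ⟨Q, h1, h2, h3⟩ := h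
  obtain ⟨Q', h1', h2', h3'⟩ := h'
  have h4 := goodD_union h1 h1'
  have e : (Ls ∪ Q) ∪ (Ls ∪ Q') = Ls ∪ (Q ∪ Q') := by
    ext x
    simp only [Set.mem_union]
    tauto
  rw [e] at h4
  refine ⟨(Q ∪ Q') ∪ {Γ}, ?_, Or.inr (Or.inr rfl), ?_⟩
  · have h5 := goodD_family (fun _ : Unit => Γ) {()} (fun _ => 0) h4
      (fun σ _ _ => ⟨(), rfl, (hΓ σ).symm⟩)
      (fun _ _ => step_more subset_rfl (by
        rintro _ (rfl | h6)
        · exact Or.inl (h2.elim Or.inl fun h => Or.inr (Or.inl h))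
        · rw [Set.mem_singleton_iff] at h6
          subst h6
          exact Or.inl (h2'.elim Or.inl fun h => Or.inr (Or.inr h))) hs)
    have e : (fun _ : Unit => Γ) '' {()} = {Γ} := by
      rw [Set.image_singleton]
    rwa [e, Set.union_assoc] at h5
  · refine (Set.ncard_union_le _ _).trans ?_
    rw [Set.ncard_singleton]
    refine Nat.add_le_add_right ((Set.ncard_union_le _ _).trans ?_) 1
    exact Nat.add_le_add h3 h3'

/-- Weakening. -/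
theorem DR.weak {r : ℕ} (hg : GoodD ψ D C Ls) {Δ Γ : Set (Lit C.N)} (h : DR ψ D Ls r Δ)
    (hΓ : Fx Γ) (hs : Δ ⊆ Γ) : DR ψ D Ls (r + 1) Γ :=
  DR.step1 hg h hΓ (.weak rfl hs)

/-- Cut. -/
theorem DR.cut {r r' : ℕ} (hg : GoodD ψ D C Ls) {Γ : Set (Lit C.N)} (a : C.N)
    (h : DR ψ D Ls r (insert ⟨a, true⟩ Γ)) (h' : DR ψ D Ls r' (insert ⟨a, false⟩ Γ))
    (hΓ : Fx Γ) : DR ψ D Ls (r + r' + 1) Γ :=
  DR.step2 hg h h' hΓ (.cut (a := a) (Or.inl rfl) (Or.inr rfl))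

/-- Conjunction, introduction. -/
theorem DR.andI {r : ℕ} (hg : GoodD ψ D C Ls) {Γ S : Set (Lit C.N)} {a : C.N}
    (hS : C.gate a = .and S) (ha : ⟨a, true⟩ ∈ Γ) (hΓ : Fx Γ)
    (h : ∀ x ∈ S, DR ψ D Ls r (insert x Γ)) : DR ψ D Ls (r * S.ncard + 1) Γ := by
  have : Finite (Lit C.N) := Pool.H31.SY.finite_lit C
  exact DR.step hg (fun x => insert x Γ) S h hΓ (.andI hS ha fun x hx => ⟨x, hx, rfl⟩)

theorem DR.andI' {r k : ℕ} (hg : GoodD ψ D C Ls) {Γ S : Set (Lit C.N)} {a : C.N}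
    (hS : C.gate a = .and S) (hk : S.ncard ≤ k) (ha : ⟨a, true⟩ ∈ Γ) (hΓ : Fx Γ)
    (h : ∀ x ∈ S, DR ψ D Ls r (insert x Γ)) : DR ψ D Ls (r * k + 1) Γ :=
  (DR.andI hg hS ha hΓ h).mono (Nat.add_le_add_right (Nat.mul_le_mul_left r hk) 1)

theorem DR.andI0 (hg : GoodD ψ D C Ls) {Γ : Set (Lit C.N)} {a : C.N}
    (hS : C.gate a = .and ∅) (ha : ⟨a, true⟩ ∈ Γ) (hΓ : Fx Γ) : DR ψ D Ls 1 Γ :=
  DR.step0 hg hΓ (.andI hS ha fun x hx => absurd hx (Set.notMem_empty x))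

/-- Conjunction, elimination. -/
theorem DR.andE {r : ℕ} (hg : GoodD ψ D C Ls) {Γ S : Set (Lit C.N)} {a : C.N}
    (hS : C.gate a = .and S) (ha : ⟨a, false⟩ ∈ Γ) (hΓ : Fx Γ)
    (h : DR ψ D Ls r (Γ ∪ Lit.neg '' S)) : DR ψ D Ls (r + 1) Γ :=
  DR.step1 hg h hΓ (.andE hS ha rfl)

/-- Identity. -/
theorem DR.ident (hg : GoodD ψ D C Ls) {Γ : Set (Lit C.N)} {a b : C.N}
    (h : C.gate a = C.gate b) (ha : ⟨a, true⟩ ∈ Γ) (hb : ⟨b, false⟩ ∈ Γ) (hΓ : Fx Γ) :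
    DR ψ D Ls 1 Γ :=
  DR.step0 hg hΓ (.ident h ha hb)

end Pool.Agent.H88.PG
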