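import Pool.Agent.H31.PH.Defs
import Pool.Agent.H31.PH.Emb
import Pool.Agent.H88.PG.Tool

/-!
# The circuit which counts the occupied holes

Nodes: the nodes of `Pool.H31.PH.pc` and nodes which are fixed by the permutations of the pigeons.
`τ j N` (the negation of the node `T j N`): exactly `N` of the first `j` holes are occupied.
`zg i j B o`: the number of the true matchings of size `i` whose holes from `j` on are the elements of
`B` is congruent to `0` (`o = none`) or to `C(N, i - |B|)` (`o = some N`).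
-/

set_option autoImplicit false

namespace Pool.Agent.H88.PG

open FirstOrder FirstOrder.Language Pool.H93.SY Pool.H31.SY Pool.H31.PH Pool.Agent.H88.SY
open scoped Pointwise

/-- The new nodes. -/
inductive Xn (s K : ℕ) : Type
  | tt
  | T (j N : Fin (s + 2))
  | a (c : Bool) (j N : Fin (s + 2))
  | zg (i : Fin (K + 1)) (j : Fin (s + 2)) (B : Sl (Fin s) K) (o : Option (Fin (s + 2)))
  | p0 (i : Fin (K + 1)) (j : Fin (s + 2)) (B : Sl (Fin s) K)
  | pr (i : Fin (K + 1)) (j : Fin (s + 2)) (B B' : Sl (Fin s) K) (N : Fin (s + 2))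
      (o : Option (Fin (s + 2)))

/-- The new nodes as a sum type. -/
def Xn.code {s K : ℕ} : Xn s K → Unit ⊕ (Fin (s + 2) × Fin (s + 2)) ⊕
    (Bool × Fin (s + 2) × Fin (s + 2)) ⊕
    (Fin (K + 1) × Fin (s + 2) × Sl (Fin s) K × Option (Fin (s + 2))) ⊕
    (Fin (K + 1) × Fin (s + 2) × Sl (Fin s) K) ⊕
    (Fin (K + 1) × Fin (s + 2) × Sl (Fin s) K × Sl (Fin s) K × Fin (s + 2) ×
      Option (Fin (s + 2)))
  | .tt => .inl ()
  | .T j N => .inr (.inl (j, N))
  | .a c j N => .inr (.inr (.inl (c, j, N)))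
  | .zg i j B o => .inr (.inr (.inr (.inl (i, j, B, o))))
  | .p0 i j B => .inr (.inr (.inr (.inr (.inl (i, j, B)))))
  | .pr i j B B' N o => .inr (.inr (.inr (.inr (.inr (i, j, B, B', N, o)))))

theorem Xn.code_injective {s K : ℕ} : Function.Injective (Xn.code : Xn s K → _) := by
  intro x y h
  cases x <;> cases y <;> simp_all [Xn.code]

instance (s K : ℕ) : Finite (Xn s K) := Finite.of_injective Xn.code Xn.code_injective

/-- The nodes. -/
def FN (ψ : phpL.Sentence) (s n K : ℕ) : Type := Nx ψ s n K ⊕ Xn s K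

instance (ψ : phpL.Sentence) (s n K : ℕ) : Finite (FN ψ s n K) :=
  inferInstanceAs (Finite (Nx ψ s n K ⊕ Xn s K))

/-- A node of the circuit `pc`. -/
def old {ψ : phpL.Sentence} {s n K : ℕ} (a : Nx ψ s n K) : FN ψ s n K := Sum.inl a

/-- A new node. -/
def new {ψ : phpL.Sentence} {s n K : ℕ} (a : Xn s K) : FN ψ s n K := Sum.inr a

instance (ψ : phpL.Sentence) (s n K : ℕ) : MulAction (Equiv.Perm (Fin n)) (FN ψ s n K) where
  smul σ x := match x with
    | Sum.inl a => Sum.inl (σ • a)
    | Sum.inr b => Sum.inr b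
  one_smul x := by
    cases x with
    | inl a => exact congrArg Sum.inl (one_smul _ a)
    | inr b => rfl
  mul_smul g g' x := by
    cases x with
    | inl a => exact congrArg Sum.inl (mul_smul g g' a)
    | inr b => rfl

variable {ψ : phpL.Sentence} {s n K : ℕ}

theorem smul_old (σ : Equiv.Perm (Fin n)) (a : Nx ψ s n K) : σ • old a = old (σ • a) := rfl

theorem smul_new (σ : Equiv.Perm (Fin n)) (a : Xn s K) :
    σ • (new a : FN ψ s n K) = new a := rfl

theorem old_injective : Function.Injective (old : Nx ψ s n K → FN ψ s n K) :=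
  Sum.inl_injective

/-- The matchings of size `i` whose holes from `j` on are the elements of `B`. -/
def Zc (i j : ℕ) (B : Finset (Fin s)) (h : Sl (Ed s n) K) : Prop :=
  Mt h.set ∧ h.set.card = i ∧ ∀ t : Fin s, j ≤ t.val → ((∃ e ∈ h.set, e.2 = t) ↔ t ∈ B)

theorem zc_smul (σ : Equiv.Perm (Fin n)) {i j : ℕ} {B : Finset (Fin s)} {h : Sl (Ed s n) K} :
    Zc i j B h ↔ Zc i j B (σ • h) := by
  unfold Zc
  rw [mt_smul, card_smul_sl]
  refine and_congr_right fun _ => and_congr_right fun _ => forall_congr' fun t =>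
    imp_congr_right fun _ => ?_
  have e : (∃ e ∈ (σ • h).set, e.2 = t) ↔ ∃ e ∈ h.set, e.2 = t := by
    constructor
    · rintro ⟨e, he, h2⟩
      obtain ⟨f, hf, rfl⟩ := mem_smul_sl.1 he
      exact ⟨f, hf, h2⟩
    · rintro ⟨e, he, h2⟩
      exact ⟨σ • e, mem_smul_sl.2 ⟨e, he, rfl⟩, h2⟩
  rw [e]

/-- The residue of a gate. -/
def cf (i : ℕ) (B : Finset (Fin s)) : Option (Fin (s + 2)) → ℕ
  | none => 0
  | some N => if B.card ≤ i then N.val.choose (i - B.card) else 0

/-- The predecessor. -/
def pre (j : Fin (s + 2)) : Fin (s + 2) := ⟨j.val - 1, by omega⟩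

variable [HasSits ψ]

/-- The label of a node. -/
noncomputable def gf (m : ℕ) : FN ψ s n K → Gate (Atom phpL (Fin s ⊕ Fin n)) (FN ψ s n K) m
  | Sum.inl a => mapG old (gx m a)
  | Sum.inr .tt => .and ∅
  | Sum.inr (.T j N) => if j.val = 0 then (if N.val = 0 then .and {⟨new .tt, false⟩} else .and ∅)
      else .and {x | (N.val ≠ 0 ∧ x = ⟨new (.a true (pre j) (pre N)), false⟩) ∨
        x = ⟨new (.a false (pre j) N), false⟩}
  | Sum.inr (.a c j N) => if h : j.val < s then
      .and {⟨new (.T j N), false⟩, ⟨old (.z (Sum.inl ⟨j.val, h⟩)), !c⟩} else .and ∅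
  | Sum.inr (.zg i j B o) => .mod ((cf i.val B.set o : ℕ) : ZMod m)
      {x | ∃ h : Sl (Ed s n) K, Zc i.val j.val B.set h ∧ x = ⟨old (.M h), true⟩}
  | Sum.inr (.p0 i j B) => .and
      {x | ∃ h : Sl (Ed s n) K, Zc i.val j.val B.set h ∧ x = ⟨old (.m0 h), true⟩}
  | Sum.inr (.pr i j B B' N o) => .and
      {⟨new (.zg i j B (some N)), true⟩, ⟨new (.zg i j B' o), true⟩}

omit [HasSits ψ] in
/-- The level of a node. -/
def rf : FN ψ s n K → ℕ
  | Sum.inl a => rx a
  | Sum.inr .tt => 0
  | Sum.inr (.T j _) => dep ψ + 4 + 2 * j.val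
  | Sum.inr (.a _ j _) => dep ψ + 5 + 2 * j.val
  | Sum.inr (.zg _ _ _ _) => dep ψ + 4
  | Sum.inr (.p0 _ _ _) => dep ψ + 4
  | Sum.inr (.pr _ _ _ _ _ _) => dep ψ + 5

theorem rf_lt (m : ℕ) (a : FN ψ s n K) : ∀ x ∈ (gf m a).children, rf x.node < rf a := by
  rcases a with a | a
  · intro x hx
    have h1 := rx_lt m a
    have h2 : x ∈ (mapG old (gx m a)).children := hx
    cases hg : gx m a with
    | var v =>
      rw [hg] at h2
      exact absurd h2 (Set.notMem_empty _)
    | and S =>
      rw [hg] at h2 h1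
      obtain ⟨y, hy, rfl⟩ := h2
      exact h1 y hy
    | mod c S =>
      rw [hg] at h2 h1
      obtain ⟨y, hy, rfl⟩ := h2
      exact h1 y hy
  · cases a with
    | tt =>
      intro x hx
      exact absurd hx (Set.notMem_empty _)
    | T j N =>
      intro x hx
      by_cases hj : j.val = 0
      · have h2 : x ∈ (if j.val = 0 then (if N.val = 0 then Gate.and {⟨new .tt, false⟩}
          else .and ∅) else .and {x | (N.val ≠ 0 ∧ x = ⟨new (.a true (pre j) (pre N)), false⟩) ∨
          x = ⟨new (.a false (pre j) N), false⟩} :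
          Gate (Atom phpL (Fin s ⊕ Fin n)) (FN ψ s n K) m).children := hx
        rw [if_pos hj] at h2
        by_cases hN : N.val = 0
        · rw [if_pos hN] at h2
          obtain rfl : x = _ := h2
          show 0 < dep ψ + 4 + 2 * j.val
          omega
        · rw [if_neg hN] at h2
          exact absurd h2 (Set.notMem_empty _)
      · have h2 : x ∈ (if j.val = 0 then (if N.val = 0 then Gate.and {⟨new .tt, false⟩}
          else .and ∅) else .and {x | (N.val ≠ 0 ∧ x = ⟨new (.a true (pre j) (pre N)), false⟩) ∨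
          x = ⟨new (.a false (pre j) N), false⟩} :
          Gate (Atom phpL (Fin s ⊕ Fin n)) (FN ψ s n K) m).children := hx
        rw [if_neg hj] at h2
        rcases h2 with ⟨-, rfl⟩ | rfl
        · show dep ψ + 5 + 2 * (j.val - 1) < dep ψ + 4 + 2 * j.val
          omega
        · show dep ψ + 5 + 2 * (j.val - 1) < dep ψ + 4 + 2 * j.val
          omega
    | a c j N =>
      intro x hx
      by_cases hj : j.val < s
      · have h2 : x ∈ (if h : j.val < s then Gate.and {⟨new (.T j N), false⟩,
          ⟨old (.z (Sum.inl ⟨j.val, h⟩)), !c⟩} else .and ∅ :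
          Gate (Atom phpL (Fin s ⊕ Fin n)) (FN ψ s n K) m).children := hx
        rw [dif_pos hj] at h2
        rcases h2 with rfl | h2
        · show dep ψ + 4 + 2 * j.val < dep ψ + 5 + 2 * j.val
          omega
        · obtain rfl : x = _ := h2
          show dep ψ + 1 < dep ψ + 5 + 2 * j.val
          omega
      · have h2 : x ∈ (if h : j.val < s then Gate.and {⟨new (.T j N), false⟩,
          ⟨old (.z (Sum.inl ⟨j.val, h⟩)), !c⟩} else .and ∅ :
          Gate (Atom phpL (Fin s ⊕ Fin n)) (FN ψ s n K) m).children := hx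
        rw [dif_neg hj] at h2
        exact absurd h2 (Set.notMem_empty _)
    | zg i j B o =>
      rintro x ⟨h, -, rfl⟩
      show dep ψ + 1 < dep ψ + 4
      omega
    | p0 i j B =>
      rintro x ⟨h, -, rfl⟩
      show dep ψ + 2 < dep ψ + 4
      omega
    | pr i j B B' N o =>
      rintro x (rfl | rfl)
      · exact Nat.lt_succ_self _
      · exact Nat.lt_succ_self _

omit [HasSits ψ] in
/-- Sets of signed nodes of matchings. -/
theorem oset_smul (σ : Equiv.Perm (Fin n)) (f : Sl (Ed s n) K → Nx ψ s n K)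
    (hf : ∀ h, f (σ • h) = σ • f h) {P : Sl (Ed s n) K → Prop}
    (h : ∀ x, P x ↔ P (σ • x)) :
    {x : Lit (FN ψ s n K) | ∃ g, P g ∧ x = ⟨old (f g), true⟩} =
      σ • {x : Lit (FN ψ s n K) | ∃ g, P g ∧ x = ⟨old (f g), true⟩} := by
  apply smul_set_of
  intro x
  constructor
  · rintro ⟨g, hg, rfl⟩
    refine ⟨σ • g, (h g).1 hg, ?_⟩
    rw [hf]
    rfl
  · rintro ⟨g, hg, hx⟩
    refine ⟨σ⁻¹ • g, (h _).2 ?_, ?_⟩
    · rw [smul_inv_smul]
      exact hg
    · apply MulAction.injective σ
      show σ • x = (⟨old (σ • f (σ⁻¹ • g)), true⟩ : Lit (FN ψ s n K))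
      rw [← hf, smul_inv_smul, hx]

/-- A set of fixed signed nodes is fixed. -/
theorem fixed_set (σ : Equiv.Perm (Fin n)) {N : Type} [MulAction (Equiv.Perm (Fin n)) N]
    {S : Set N} (h : ∀ x ∈ S, σ • x = x) : σ • S = S := by
  ext x
  constructor
  · intro hx
    obtain ⟨y, hy, rfl⟩ := Set.mem_smul_set.1 hx
    rwa [h y hy]
  · intro hx
    exact Set.mem_smul_set.2 ⟨x, hx, h x hx⟩

theorem gf_smul (m : ℕ) (σ : Equiv.Perm (Fin n)) (a : FN ψ s n K) :
    gf m (σ • a) = (gf m a).act σ := by
  rcases a with a | a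
  · show mapG old (gx m (σ • a)) = (mapG old (gx m a)).act σ
    rw [gx_smul]
    exact mapG_act old (fun _ _ => rfl) σ _
  · cases a with
    | tt =>
      show Gate.and ∅ = Gate.and (σ • (∅ : Set (Lit (FN ψ s n K))))
      rw [Set.smul_set_empty]
    | T j N =>
      show gf m (Sum.inr (Xn.T j N) : FN ψ s n K) = (gf m (Sum.inr (Xn.T j N))).act σ
      unfold gf
      by_cases hj : j.val = 0
      · by_cases hN : N.val = 0
        · simp only [if_pos hj, if_pos hN]
          show _ = Gate.and (σ • _)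
          rw [fixed_set σ]
          intro x hx
          obtain rfl : x = _ := hx
          rfl
        · simp only [if_pos hj, if_neg hN]
          show _ = Gate.and (σ • _)
          rw [Set.smul_set_empty]
      · simp only [if_neg hj]
        show _ = Gate.and (σ • _)
        rw [fixed_set σ]
        rintro x (⟨-, rfl⟩ | rfl)
        · rfl
        · rfl
    | a c j N =>
      show gf m (Sum.inr (Xn.a c j N) : FN ψ s n K) = (gf m (Sum.inr (Xn.a c j N))).act σ
      unfold gf
      by_cases hj : j.val < s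
      · simp only [dif_pos hj]
        show _ = Gate.and (σ • _)
        rw [fixed_set σ]
        rintro x (rfl | rfl)
        · rfl
        · rfl
      · simp only [dif_neg hj]
        show _ = Gate.and (σ • _)
        rw [Set.smul_set_empty]
    | zg i j B o =>
      exact congrArg (Gate.mod _) (oset_smul σ Nx.M (fun _ => rfl) fun h => zc_smul σ)
    | p0 i j B =>
      exact congrArg Gate.and (oset_smul σ Nx.m0 (fun _ => rfl) fun h => zc_smul σ)
    | pr i j B B' N o =>
      show Gate.and _ = Gate.and (σ • _)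
      rw [fixed_set σ]
      rintro x (rfl | rfl)
      · rfl
      · rfl

/-- The circuit. -/
noncomputable def fc (ψ : phpL.Sentence) [HasSits ψ] (m s n K : ℕ) : Circuit phpL m s n where
  N := FN ψ s n K
  gate := gf m
  rank := rf
  rank_lt := rf_lt m
  gate_smul := gf_smul m

end Pool.Agent.H88.PG
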