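import Pool.Agent.H88.PG.Zg

/-!
# The number of matchings is determined by the number of occupied holes
-/

set_option autoImplicit false

namespace Pool.Agent.H88.PG

open FirstOrder FirstOrder.Language Pool.H93.SY Pool.H31.SY Pool.H31.PH Pool.Agent.H88.SY
open scoped Pointwise

variable {ψ : phpL.Sentence} {s n K : ℕ}

/-- The line: if `N` of the first `j` holes and all holes in `B` are occupied then the number of the
matchings with last holes `B` is as expected. -/
def cl (ψ : phpL.Sentence) (s n K : ℕ) (i : Fin (K + 1)) (j N : ℕ) (B : Sl (Fin s) K) :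
    Set (Lit (FN ψ s n K)) :=
  {tn ψ s n K j N, yl ψ n B false, zgl ψ n i j B (some N)}

theorem hs_eq {i : ℕ} {B : Sl (Fin s) K} {h : Sl (Ed s n) K} (hz : Zc i 0 B.set h) :
    (hs h).set = B.set := by
  ext t
  rw [mem_hs]
  exact hz.2.2 t (Nat.zero_le _)

theorem zc_zero {B : Sl (Fin s) K} {h : Sl (Ed s n) K} :
    Zc B.set.card 0 B.set h ↔ h ∈ HA (vb n B).set := by
  constructor
  · intro hz
    refine ⟨?_, hz.1, ?_⟩
    · rw [card_vb]
      exact hz.2.1
    · intro v hv
      obtain ⟨t, ht, rfl⟩ := mem_vb.1 hv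
      obtain ⟨e, he, rfl⟩ := (hz.2.2 t (Nat.zero_le _)).2 ht
      exact ⟨e, he, false, rfl⟩
  · intro hh
    have h1 := ha_eq (side_vb B) hh
    refine ⟨hh.2.1, ?_, fun t _ => ?_⟩
    · rw [hh.1, card_vb]
    · constructor
      · rintro ⟨e, he, rfl⟩
        have h2 : (Sum.inl e.2 : Vx s n) ∈ (vb n B).set := by
          rw [h1]
          exact Finset.mem_image.2 ⟨e, he, rfl⟩
        obtain ⟨t, ht, h3⟩ := mem_vb.1 h2
        have h4 : t = e.2 := Sum.inl_injective h3
        rw [← h4]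
        exact ht
      · intro ht
        have h2 : (Sum.inl t : Vx s n) ∈ (vb n B).set := mem_vb.2 ⟨t, ht, rfl⟩
        rw [h1] at h2
        obtain ⟨e, he, h3⟩ := Finset.mem_image.1 h2
        exact ⟨e, he, Sum.inl_injective h3⟩

theorem zc_big {i j : ℕ} {B : Sl (Fin s) K} (hB : ∀ t ∈ B.set, j ≤ t.val) (hc : i < B.set.card)
    (h : Sl (Ed s n) K) : ¬ Zc i j B.set h := by
  rintro ⟨hm, h1, h2⟩
  have h3 : B.set ⊆ (hs h).set := by
    intro t ht
    exact mem_hs.2 ((h2 t (hB t ht)).2 ht)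
  have h4 := Finset.card_le_card h3
  rw [card_hs hm, h1] at h4
  omega

variable [HasSits ψ] {m : ℕ}

theorem cl_fx (i : Fin (K + 1)) (j N : ℕ) (B : Sl (Fin s) K) :
    Fx (C := fc ψ m s n K) (cl ψ s n K i j N B) :=
  fx_insert (fl_tn _ _) (fx_insert (fl_yl _ _) (fx_singleton (fl_zgl _ _ _ _)))

variable {D : Set (Atom phpL (Fin s ⊕ Fin n) × Bool)} {Ls : Set (Set (Lit (FN ψ s n K)))}

omit [HasSits ψ] in
theorem some_le {N M : ℕ} (h : N ≤ M) : ∀ N', some N = some N' → N' ≤ M := by
  intro N' e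
  injection e with e
  omega

/-- The first lines. -/
theorem cl_zero (hg : GoodD ψ D (fc ψ m s n K) Ls)
    (hb : ∀ B : Sl (Fin s) K, {yl ψ n B false, (⟨old (.b (vb n B)), true⟩ : Lit (FN ψ s n K))} ∈ Ls)
    (i : Fin (K + 1)) {N : ℕ} (hN : N ≤ s) (B : Sl (Fin s) K) :
    DR ψ D (C := fc ψ m s n K) Ls 3 (cl ψ s n K i 0 N B) := by
  have hfx : Fx (C := fc ψ m s n K) (cl ψ s n K i 0 N B) := cl_fx i 0 N B
  rcases Nat.eq_zero_or_pos N with rfl | hN0
  · by_cases hc : B.set.card = i.val
    · have hflb : Fl (⟨old (.b (vb n B)), true⟩ : Lit (FN ψ s n K)) := by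
        intro σ
        show (⟨old (.b (σ • vb n B)), true⟩ : Lit (FN ψ s n K)) = _
        rw [vb_smul]
      have hflb' : Fl (⟨old (.b (vb n B)), false⟩ : Lit (FN ψ s n K)) := by
        intro σ
        show (⟨old (.b (σ • vb n B)), false⟩ : Lit (FN ψ s n K)) = _
        rw [vb_smul]
      refine DR.cut (C := fc ψ m s n K) (r := 1) (r' := 1) hg
        (old (.b (vb n B)) : FN ψ s n K) ?_ ?_ hfx
      · refine DR.weak (C := fc ψ m s n K) (r := 0) hg (DR.base (C := fc ψ m s n K) hg (hb B))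
          (fx_insert hflb hfx) ?_
        rintro x (rfl | rfl)
        · exact Or.inr (Or.inr (Or.inl rfl))
        · exact Or.inl rfl
      · refine DR.ident (C := fc ψ m s n K)
          (a := (new (.zg i (fz s 0) B ((some 0).map (fz s))) : FN ψ s n K))
          (b := (old (.b (vb n B)) : FN ψ s n K)) hg ?_ (Or.inr (Or.inr (Or.inr rfl)))
          (Or.inl rfl) (fx_insert hflb' hfx)
        show gf m (new (.zg i (fz s 0) B ((some 0).map (fz s))) : FN ψ s n K) = _
        rw [gate_zg i (Nat.zero_le _) B (some_le (Nat.zero_le _))]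
        have e1 : cn i.val B.set (some 0) = 1 := by
          show (if B.set.card ≤ i.val then (0 : ℕ).choose (i.val - B.set.card) else 0) = 1
          rw [if_pos hc.le, hc, Nat.sub_self, Nat.choose_zero_right]
        rw [e1, Nat.cast_one]
        refine congrArg (Gate.mod 1) ?_
        show zs ψ n K i.val 0 B.set = mapL old ''
          {x : Lit (Nx ψ s n K) | ∃ h ∈ HA (vb n B).set, x = ⟨.M h, true⟩}
        rw [← hc]
        ext x
        constructor
        · rintro ⟨h, hh, rfl⟩
          exact ⟨_, ⟨h, zc_zero.1 hh, rfl⟩, rfl⟩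
        · rintro ⟨_, ⟨h, hh, rfl⟩, rfl⟩
          exact ⟨h, zc_zero.2 hh, rfl⟩
    · refine zg_none (i := i) (B := B) (o := some 0) hg hfx (Nat.zero_le _)
        (some_le (Nat.zero_le _)) ?_ ?_ (Or.inr (Or.inr rfl))
      · show (if B.set.card ≤ i.val then (0 : ℕ).choose (i.val - B.set.card) else 0) = 0
        split_ifs with h
        · exact Nat.choose_eq_zero_of_lt (by omega)
        · rfl
      · intro h hz
        apply hc
        have h1 := hs_eq hz
        rw [← h1, card_hs hz.1]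
        exact hz.2.1
  · exact (tau_zero' hN0 (by omega) hg hfx (Or.inl rfl)).mono (by omega)

/-- The step from `j` to `j + 1` holes. -/
theorem cl_step (hg : GoodD ψ D (fc ψ m s n K) Ls) {j : ℕ} (hj : j < s)
    (hz : ∀ (i : Fin (K + 1)) (j : Fin (s + 2)) (B : Sl (Fin s) K), (∀ t ∈ B.set, j.val ≤ t.val) →
      {yl ψ n B true, p0l ψ n i j B} ∈ Ls)
    (hl : ∀ (i : Fin (K + 1)) (N : ℕ) (B : Sl (Fin s) K), i.val < K → N ≤ s →
      (∀ t ∈ B.set, j ≤ t.val) → cl ψ s n K i j N B ∈ Ls)
    {i : Fin (K + 1)} (hi : i.val < K) {N : ℕ} (hN : N ≤ s) {B : Sl (Fin s) K}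
    (hB : ∀ t ∈ B.set, j + 1 ≤ t.val) :
    DR ψ D (C := fc ψ m s n K) Ls (8 * K + 39) (cl ψ s n K i (j + 1) N B) := by
  classical
  by_cases hc : i.val < B.set.card
  · refine (zg_none (i := i) (B := B) (o := some N) hg (cl_fx i (j + 1) N B) (by omega)
      (some_le (by omega)) ?_ (zc_big hB hc) (Or.inr (Or.inr rfl))).mono (by omega)
    show (if B.set.card ≤ i.val then N.choose (i.val - B.set.card) else 0) = 0
    rw [if_neg (by omega)]
  · have hjB : (⟨j, hj⟩ : Fin s) ∉ B.set := fun h => by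
      have h3 : j + 1 ≤ j := hB _ h
      omega
    obtain ⟨B', hBB⟩ : ∃ B' : Sl (Fin s) K, B'.set = insert (⟨j, hj⟩ : Fin s) B.set :=
      ⟨⟨insert (⟨j, hj⟩ : Fin s) B.set, by
        rw [Finset.card_insert_of_notMem hjB]
        omega⟩, rfl⟩
    have hB' : ∀ t : Fin s, t ∈ B'.set ↔ t = ⟨j, hj⟩ ∨ t ∈ B.set := by
      intro t
      rw [hBB]
      exact Finset.mem_insert
    have hjB' : (⟨j, hj⟩ : Fin s) ∈ B'.set := (hB' _).2 (Or.inl rfl)
    have hcard : B'.set.card = B.set.card + 1 := by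
      rw [hBB, Finset.card_insert_of_notMem hjB]
    have hB2 : ∀ t ∈ B'.set, j ≤ t.val := by
      intro t ht
      rcases (hB' t).1 ht with rfl | h
      · exact le_rfl
      · exact (Nat.le_succ j).trans (hB t h)
    have hB1 : ∀ t ∈ B.set, j ≤ t.val := fun t ht => (Nat.le_succ j).trans (hB t ht)
    have hpas : N ≠ 0 → cn i.val B.set (some N) =
        cn i.val B.set (some (N - 1)) + cn i.val B'.set (some (N - 1)) := by
      intro hN0
      obtain ⟨N', rfl⟩ : ∃ N', N = N' + 1 := ⟨N - 1, by omega⟩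
      show (if B.set.card ≤ i.val then (N' + 1).choose (i.val - B.set.card) else 0) =
        (if B.set.card ≤ i.val then (N' + 1 - 1).choose (i.val - B.set.card) else 0) +
        (if B'.set.card ≤ i.val then (N' + 1 - 1).choose (i.val - B'.set.card) else 0)
      rw [if_pos (by omega), if_pos (by omega), hcard, Nat.add_sub_cancel]
      rcases Nat.eq_or_lt_of_le (show B.set.card ≤ i.val by omega) with h | h
      · rw [if_neg (by omega), h, Nat.sub_self, Nat.choose_zero_right, Nat.choose_zero_right]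
      · rw [if_pos (by omega)]
        obtain ⟨d, hd⟩ : ∃ d, i.val - B.set.card = d + 1 := ⟨i.val - B.set.card - 1, by omega⟩
        rw [hd, show i.val - (B.set.card + 1) = d by omega, Nat.choose_succ_succ, add_comm]
    have hfx : Fx (C := fc ψ m s n K) {yl ψ n B false, zgl ψ n i (j + 1) B (some N)} :=
      fx_insert (fl_yl _ _) (fx_singleton (fl_zgl _ _ _ _))
    refine (tau_elim (r := 4 * K + 17) (N := N) hj (by omega) hg hfx ?_ ?_).mono (by omega)
    · intro hN0
      have hfx2 : Fx (C := fc ψ m s n K) (insert (tn ψ s n K j (N - 1))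
          (insert (zl ψ n K ⟨j, hj⟩ true) {yl ψ n B false, zgl ψ n i (j + 1) B (some N)})) :=
        fx_insert (fl_tn _ _) (fx_insert (fl_zl _ _) hfx)
      refine (DR.cut (C := fc ψ m s n K) (r := 4 * K + 7) (r' := 1) hg
        (new (.pr i (fz s j) B B' (fz s (N - 1)) ((some (N - 1)).map (fz s))) : FN ψ s n K)
        ?_ ?_ hfx2).mono (by omega)
      · have hfx3 := fx_insert (m := m) (fl_new (ψ := ψ) (n := n)
          (.pr i (fz s j) B B' (fz s (N - 1)) ((some (N - 1)).map (fz s))) true) hfx2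
        refine (DR.andI' (C := fc ψ m s n K) (r := 2 * K + 3) (k := 2) hg rfl
          (ncard_pair_le _ _) (Or.inl rfl) hfx3 ?_).mono (by omega)
        rintro x (rfl | rfl)
        · refine (DR.weak (C := fc ψ m s n K) (r := 0) hg (DR.base (C := fc ψ m s n K) hg
            (hl i (N - 1) B hi (by omega) hB1)) (fx_insert (fl_new _ _) hfx3) ?_).mono (by omega)
          rintro x (rfl | rfl | rfl)
          · exact Or.inr (Or.inr (Or.inl rfl))
          · exact Or.inr (Or.inr (Or.inr (Or.inr (Or.inl rfl))))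
          · exact Or.inl rfl
        · have hfx4 := fx_insert (m := m) (fl_new (ψ := ψ) (n := n)
            (.zg i (fz s j) B' ((some (N - 1)).map (fz s))) true) hfx3
          refine (DR.cut (C := fc ψ m s n K) (r := 2 * K + 1) (r' := 1) hg
            (old (.y (vb n B')) : FN ψ s n K) ?_ ?_ hfx4).mono (by omega)
          · exact y_add (B := B) (B' := B') (t := ⟨j, hj⟩) hg (fx_insert (fl_yl _ _) hfx4)
              (fun u hu => (hB' u).1 hu)
              (Or.inr (Or.inr (Or.inr (Or.inr (Or.inl rfl)))))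
              (Or.inr (Or.inr (Or.inr (Or.inr (Or.inr (Or.inl rfl)))))) (Or.inl rfl)
          · refine DR.weak (C := fc ψ m s n K) (r := 0) hg (DR.base (C := fc ψ m s n K) hg
              (hl i (N - 1) B' hi (by omega) hB2)) (fx_insert (fl_yl _ _) hfx4) ?_
            rintro x (rfl | rfl | rfl)
            · exact Or.inr (Or.inr (Or.inr (Or.inl rfl)))
            · exact Or.inl rfl
            · exact Or.inr (Or.inl rfl)
      · exact sum_pair (N := N - 1) (N' := N) (o := some (N - 1)) hg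
          (fx_insert (fl_new _ _) hfx2) hj hB hB' (by omega) (by omega)
          (some_le (by omega)) (hpas hN0) (Or.inl rfl)
          (Or.inr (Or.inr (Or.inr (Or.inr rfl))))
    · have hfx2 : Fx (C := fc ψ m s n K) (insert (tn ψ s n K j N)
          (insert (zl ψ n K ⟨j, hj⟩ false) {yl ψ n B false, zgl ψ n i (j + 1) B (some N)})) :=
        fx_insert (fl_tn _ _) (fx_insert (fl_zl _ _) hfx)
      refine (DR.cut (C := fc ψ m s n K) (r := 4 * K + 15) (r' := 1) hg
        (new (.pr i (fz s j) B B' (fz s N) ((none : Option ℕ).map (fz s))) : FN ψ s n K)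
        ?_ ?_ hfx2).mono (by omega)
      · have hfx3 := fx_insert (m := m) (fl_new (ψ := ψ) (n := n)
          (.pr i (fz s j) B B' (fz s N) ((none : Option ℕ).map (fz s))) true) hfx2
        refine (DR.andI' (C := fc ψ m s n K) (r := 2 * K + 7) (k := 2) hg rfl
          (ncard_pair_le _ _) (Or.inl rfl) hfx3 ?_).mono (by omega)
        rintro x (rfl | rfl)
        · refine (DR.weak (C := fc ψ m s n K) (r := 0) hg (DR.base (C := fc ψ m s n K) hg
            (hl i N B hi hN hB1)) (fx_insert (fl_new _ _) hfx3) ?_).mono (by omega)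
          rintro x (rfl | rfl | rfl)
          · exact Or.inr (Or.inr (Or.inl rfl))
          · exact Or.inr (Or.inr (Or.inr (Or.inr (Or.inl rfl))))
          · exact Or.inl rfl
        · have hfx4 := fx_insert (m := m) (fl_new (ψ := ψ) (n := n)
            (.zg i (fz s j) B' ((none : Option ℕ).map (fz s))) true) hfx3
          refine (DR.cut (C := fc ψ m s n K) (r := 3) (r' := 2) hg
            (old (.y (vb n B')) : FN ψ s n K) ?_ ?_ hfx4).mono (by omega)
          · refine zg_zero (i := i) (j := j) (B := B') hg (fx_insert (fl_yl _ _) hfx4) (by omega)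
              (hz i (fz s j) B' ?_) (Or.inl rfl) (Or.inr (Or.inl rfl))
            intro t ht
            rw [fz_val (by omega)]
            exact hB2 t ht
          · exact y_elim (B := B') (t := ⟨j, hj⟩) hg (fx_insert (fl_yl _ _) hfx4) hjB'
              (Or.inl rfl) (Or.inr (Or.inr (Or.inr (Or.inr (Or.inl rfl)))))
      · exact sum_pair (N := N) (N' := N) (o := none) hg
          (fx_insert (fl_new _ _) hfx2) hj hB hB' (by omega) (by omega)
          (fun _ h => by cases h) rfl (Or.inl rfl)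
          (Or.inr (Or.inr (Or.inr (Or.inr rfl))))

/-- All lines `cl`. -/
theorem cl_lines (hg : GoodD ψ D (fc ψ m s n K) Ls)
    (hb : ∀ B : Sl (Fin s) K, {yl ψ n B false, (⟨old (.b (vb n B)), true⟩ : Lit (FN ψ s n K))} ∈ Ls)
    (hz : ∀ (i : Fin (K + 1)) (j : Fin (s + 2)) (B : Sl (Fin s) K), (∀ t ∈ B.set, j.val ≤ t.val) →
      {yl ψ n B true, p0l ψ n i j B} ∈ Ls) : ∀ j, j ≤ s →
    ∃ Ls' : Set (Set (Lit (FN ψ s n K))), GoodD ψ D (fc ψ m s n K) Ls' ∧ Ls ⊆ Ls' ∧
      (∀ (i : Fin (K + 1)) (N : ℕ) (B : Sl (Fin s) K), i.val < K → N ≤ s →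
        (∀ t ∈ B.set, j ≤ t.val) → cl ψ s n K i j N B ∈ Ls') ∧
      Ls'.ncard ≤ Ls.ncard + (j + 1) * ((8 * K + 39) *
        ((K + 1) * ((s + 2) * Nat.card (Sl (Fin s) K)))) := by
  have hcard : ∀ J : Set (Fin (K + 1) × Fin (s + 2) × Sl (Fin s) K),
      J.ncard ≤ (K + 1) * ((s + 2) * Nat.card (Sl (Fin s) K)) := by
    intro J
    refine (Set.ncard_le_ncard (Set.subset_univ _) (Set.toFinite _)).trans ?_
    rw [Set.ncard_univ, Nat.card_prod, Nat.card_prod,
      Nat.card_eq_fintype_card (α := Fin (s + 2)), Nat.card_eq_fintype_card (α := Fin (K + 1)),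
      Fintype.card_fin, Fintype.card_fin]
  intro j
  induction j with
  | zero =>
    intro _
    have hdr : ∀ x ∈ {x : Fin (K + 1) × Fin (s + 2) × Sl (Fin s) K | x.2.1.val ≤ s},
        DR ψ D (C := fc ψ m s n K) Ls 3 (cl ψ s n K x.1 0 x.2.1.val x.2.2) := by
      rintro ⟨i, N, B⟩ h1
      exact cl_zero hg hb i h1 B
    obtain ⟨Q, hg2, hl2, hc2⟩ := DR.many (C := fc ψ m s n K) hg
      (fun x : Fin (K + 1) × Fin (s + 2) × Sl (Fin s) K => cl ψ s n K x.1 0 x.2.1.val x.2.2) _ hdr
    refine ⟨Ls ∪ Q, hg2, Set.subset_union_left, ?_, ?_⟩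
    · intro i N B _ hN _
      exact hl2 (i, ⟨N, by omega⟩, B) hN
    · refine (Set.ncard_union_le Ls Q).trans (Nat.add_le_add_left ?_ _)
      rw [zero_add, one_mul]
      exact hc2.trans (Nat.mul_le_mul (by omega) (hcard _))
  | succ j ih =>
    intro hj
    obtain ⟨L1, hg1, hs1, hl1, hc1⟩ := ih (by omega)
    have hdr : ∀ x ∈ {x : Fin (K + 1) × Fin (s + 2) × Sl (Fin s) K | x.1.val < K ∧ x.2.1.val ≤ s ∧
        ∀ t ∈ x.2.2.set, j + 1 ≤ t.val},
        DR ψ D (C := fc ψ m s n K) L1 (8 * K + 39) (cl ψ s n K x.1 (j + 1) x.2.1.val x.2.2) := by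
      rintro ⟨i, N, B⟩ ⟨h1, h2, h3⟩
      exact cl_step hg1 (by omega) (fun i j B h => hs1 (hz i j B h)) hl1 h1 h2 h3
    obtain ⟨Q, hg2, hl2, hc2⟩ := DR.many (C := fc ψ m s n K) hg1
      (fun x : Fin (K + 1) × Fin (s + 2) × Sl (Fin s) K =>
        cl ψ s n K x.1 (j + 1) x.2.1.val x.2.2) _ hdr
    refine ⟨L1 ∪ Q, hg2, hs1.trans Set.subset_union_left, ?_, ?_⟩
    · intro i N B hi hN hB
      exact hl2 (i, ⟨N, by omega⟩, B) ⟨hi, hN, hB⟩
    · refine (Set.ncard_union_le L1 Q).trans ?_
      refine (Nat.add_le_add hc1 (hc2.trans (Nat.mul_le_mul_left _ (hcard _)))).trans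
        (le_of_eq ?_)
      ring

end Pool.Agent.H88.PG
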