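import Pool.Agent.H88.PG.Tau

/-!
# Some number of holes is occupied
-/

set_option autoImplicit false

namespace Pool.Agent.H88.PG

open FirstOrder FirstOrder.Language Pool.H93.SY Pool.H31.SY Pool.H31.PH Pool.Agent.H88.SY
open scoped Pointwise

variable {ψ : phpL.Sentence} {s n K : ℕ}

/-- Less than `k` of the first `j` holes are occupied. -/
def ul (ψ : phpL.Sentence) (s n K : ℕ) (j k : ℕ) : Set (Lit (FN ψ s n K)) :=
  {x | ∃ N < k, x = tl ψ s n K j N}

variable [HasSits ψ] {m : ℕ}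

theorem ul_fx (j k : ℕ) : Fx (C := fc ψ m s n K) (ul ψ s n K j k) :=
  fx_of (by
    rintro _ ⟨N, -, rfl⟩
    exact fl_tl _ _)

variable {D : Set (Atom phpL (Fin s ⊕ Fin n) × Bool)} {Ls : Set (Set (Lit (FN ψ s n K)))}

/-- One more hole. -/
theorem tau_next {j N : ℕ} (hj : j < s) (hN : N ≤ s) (hg : GoodD ψ D (fc ψ m s n K) Ls) :
    DR ψ D (C := fc ψ m s n K) Ls 11
      {tn ψ s n K j N, tl ψ s n K (j + 1) N, tl ψ s n K (j + 1) (N + 1)} := by
  have hfx : Fx (C := fc ψ m s n K)
      {tn ψ s n K j N, tl ψ s n K (j + 1) N, tl ψ s n K (j + 1) (N + 1)} :=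
    fx_insert (fl_tn _ _) (fx_insert (fl_tl _ _) (fx_singleton (fl_tl _ _)))
  refine (DR.cut (C := fc ψ m s n K) (r := 5) (r' := 5) hg
    (old (.z (Sum.inl (⟨j, hj⟩ : Fin s))) : FN ψ s n K) ?_ ?_ hfx)
  · refine DR.weak (C := fc ψ m s n K) hg (tau_occ hj hN hg)
      (fx_insert (fl_zl (⟨j, hj⟩ : Fin s) true) hfx) ?_
    rintro x (rfl | rfl | rfl)
    · exact Or.inr (Or.inl rfl)
    · exact Or.inl rfl
    · exact Or.inr (Or.inr (Or.inr rfl))
  · refine DR.weak (C := fc ψ m s n K) hg (tau_emp (N := N) hj (by omega) hg)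
      (fx_insert (fl_zl (⟨j, hj⟩ : Fin s) false) hfx) ?_
    rintro x (rfl | rfl | rfl)
    · exact Or.inr (Or.inl rfl)
    · exact Or.inl rfl
    · exact Or.inr (Or.inr (Or.inl rfl))

omit [HasSits ψ] in
theorem ul_succ (j k : ℕ) : ul ψ s n K j (k + 1) = insert (tl ψ s n K j k) (ul ψ s n K j k) := by
  ext x
  constructor
  · rintro ⟨N, hN, rfl⟩
    rcases Nat.lt_succ_iff_lt_or_eq.1 hN with h | rfl
    · exact Or.inr ⟨N, h, rfl⟩
    · exact Or.inl rfl
  · rintro (rfl | ⟨N, hN, rfl⟩)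
    · exact ⟨k, Nat.lt_succ_self k, rfl⟩
    · exact ⟨N, by omega, rfl⟩

/-- From `j` to `j + 1` holes. -/
theorem ul_step {j r : ℕ} (hj : j < s) (hg : GoodD ψ D (fc ψ m s n K) Ls)
    (h : DR ψ D (C := fc ψ m s n K) Ls r (ul ψ s n K j (j + 1))) :
    ∀ k, k ≤ j + 1 → DR ψ D (C := fc ψ m s n K) Ls (r + 1 + 13 * (j + 1 - k))
      (ul ψ s n K j k ∪ ul ψ s n K (j + 1) (j + 2)) := by
  intro k hk
  obtain ⟨d, hd⟩ : ∃ d, d = j + 1 - k := ⟨_, rfl⟩
  induction d generalizing k with
  | zero =>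
    obtain rfl : k = j + 1 := by omega
    refine (DR.weak (C := fc ψ m s n K) hg h (fx_union (ul_fx _ _) (ul_fx _ _))
      Set.subset_union_left).mono (by omega)
  | succ d ih =>
    have h1 := ih (k + 1) (by omega) (by omega)
    have hfx : Fx (C := fc ψ m s n K) (ul ψ s n K j k ∪ ul ψ s n K (j + 1) (j + 2)) :=
      fx_union (ul_fx _ _) (ul_fx _ _)
    have e : ul ψ s n K j (k + 1) ∪ ul ψ s n K (j + 1) (j + 2) =
        insert (tl ψ s n K j k) (ul ψ s n K j k ∪ ul ψ s n K (j + 1) (j + 2)) := by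
      rw [ul_succ, Set.insert_union]
    refine (DR.cut (C := fc ψ m s n K) (r := 12) hg
      (new (.T (fz s j) (fz s k)) : FN ψ s n K) ?_ (h1.congr e) hfx).mono (by omega)
    refine DR.weak (C := fc ψ m s n K) hg (tau_next hj (by omega : k ≤ s) hg)
      (fx_insert (fl_tn _ _) hfx) ?_
    rintro x (rfl | rfl | rfl)
    · exact Or.inl rfl
    · exact Or.inr (Or.inr ⟨k, by omega, rfl⟩)
    · exact Or.inr (Or.inr ⟨k + 1, by omega, rfl⟩)

/-- Some number of the first `j` holes is occupied. -/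
theorem ul_all (hg : GoodD ψ D (fc ψ m s n K) Ls) : ∀ j, j ≤ s →
    DR ψ D (C := fc ψ m s n K) Ls (2 + 14 * (j * (s + 1))) (ul ψ s n K j (j + 1)) := by
  intro j
  induction j with
  | zero =>
    intro _
    have e : ul ψ s n K 0 (0 + 1) = {tl ψ s n K 0 0} := by
      ext x
      constructor
      · rintro ⟨N, hN, rfl⟩
        obtain rfl : N = 0 := by omega
        rfl
      · intro hx
        obtain rfl : x = _ := hx
        exact ⟨0, by omega, rfl⟩
    rw [e]
    exact (tau_zero hg).mono (by omega)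
  | succ j ih =>
    intro hj
    have h1 := ul_step (by omega : j < s) hg (ih (by omega)) 0 (Nat.zero_le _)
    have e : ul ψ s n K j 0 = ∅ := by
      ext x
      constructor
      · rintro ⟨N, hN, -⟩
        omega
      · intro hx
        exact absurd hx (Set.notMem_empty x)
    have e2 : ul ψ s n K j 0 ∪ ul ψ s n K (j + 1) (j + 2) = ul ψ s n K (j + 1) (j + 2) := by
      rw [e, Set.empty_union]
    refine (h1.congr e2).mono ?_
    have h2 : (j + 1) * (s + 1) = j * (s + 1) + (s + 1) := by ring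
    omega

/-- If no number of holes is occupied the empty line is derived. -/
theorem empty_of (hg : GoodD ψ D (fc ψ m s n K) Ls) {r : ℕ}
    (h : ∀ N ≤ s, DR ψ D (C := fc ψ m s n K) Ls r {tn ψ s n K s N}) :
    DR ψ D (C := fc ψ m s n K) Ls (2 + 14 * (s * (s + 1)) + (r + 2) * (s + 1)) ∅ := by
  have key : ∀ k, k ≤ s + 1 → DR ψ D (C := fc ψ m s n K) Ls
      (2 + 14 * (s * (s + 1)) + (r + 2) * (s + 1 - k)) (ul ψ s n K s k) := by
    intro k hk
    obtain ⟨d, hd⟩ : ∃ d, d = s + 1 - k := ⟨_, rfl⟩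
    induction d generalizing k with
    | zero =>
      obtain rfl : k = s + 1 := by omega
      exact (ul_all hg s le_rfl).mono (by omega)
    | succ d ih =>
      have h1 := ih (k + 1) (by omega) (by omega)
      refine (DR.cut (C := fc ψ m s n K) (r := r + 1) hg
        (new (.T (fz s s) (fz s k)) : FN ψ s n K) ?_ (h1.congr (ul_succ s k))
        (ul_fx _ _)).mono ?_
      · refine DR.weak (C := fc ψ m s n K) hg (h k (by omega))
          (fx_insert (fl_tn _ _) (ul_fx _ _)) ?_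
        intro x hx
        exact Or.inl hx
      · have h2 : s + 1 - k = (s + 1 - (k + 1)) + 1 := by omega
        have h3 : (r + 2) * (s + 1 - k) = (r + 2) * (s + 1 - (k + 1)) + (r + 2) := by
          rw [h2, Nat.mul_succ]
        rw [h3]
        generalize (r + 2) * (s + 1 - (k + 1)) = x
        generalize 14 * (s * (s + 1)) = y
        omega
  have h1 := key 0 (Nat.zero_le _)
  have e : ul ψ s n K s 0 = ∅ := by
    ext x
    constructor
    · rintro ⟨N, hN, -⟩
      omega
    · intro hx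
      exact absurd hx (Set.notMem_empty x)
  exact h1.congr e

end Pool.Agent.H88.PG
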