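import Pool.Agent.H88.PG.Fun
import Pool.Agent.H88.PG.Vand
import Pool.Agent.H88.PG.Luc
import Pool.Agent.H88.SY.PhpBij

/-!
# The pigeonhole principle and modular gates: exact exponents

`php`: `n` pigeons and `s` holes, every pigeon sits in exactly one hole, no two pigeons sit in the
same hole; `phpB`: moreover every hole gets a pigeon. `Refutation ψ m s n (pigeons s n)`: refutations
in the sequent calculus with conjunctions and counting gates modulo `m` of unbounded fan-in, of any
depth, which are symmetric under all permutations of the pigeons.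

`Alike m k n N`: `m` divides the binomial coefficients `C(|n - N|, i)`, `0 < i < k`; that is, the numbers
of the sets with less than `k` elements are the same modulo `m` for `n` and for `N` points.
-/

set_option autoImplicit false

namespace Pool.Agent.H88.PG

open FirstOrder FirstOrder.Language Pool.H93.SY Pool.H31.SY Pool.H31.PH Pool.Agent.H88.SY

/-- `m` divides `C(|n - N|, i)` for `0 < i < k`. -/
def Alike (m k n N : ℕ) : Prop := ∀ i, 0 < i → i < k → m ∣ (max n N - min n N).choose i

theorem final :
    (∀ m s n k : ℕ, 19 + 64 * k ≤ n →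
      (∀ N, N ≤ s → 19 + 8 * k ≤ N → Alike m k n N →
        ∀ R : Refutation php m s n (pigeons s n), n.choose k ≤ R.size) ∧
      (19 + 8 * k ≤ s → Alike m k n s →
        ∀ R : Refutation phpB m s n (pigeons s n), n.choose k ≤ R.size)) ∧
    (∃ c : ℕ, ∀ m s n k : ℕ, 2 ≤ s + n →
      (s < n → (∀ N, N ≤ s → k ≤ N + 1 → ¬ Alike m k n N) →
        ∃ R : Refutation php m s n (pigeons s n), R.size ≤ (s + n) ^ (c * k)) ∧
      (s ≠ n → (k ≤ min n s + 1 → ¬ Alike m k n s) →
        ∃ R : Refutation phpB m s n (pigeons s n), R.size ≤ (s + n) ^ (c * k) ∧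
          ∀ a, R.C.rank a ≤ c)) ∧
    (∀ m s n k : ℕ, 0 < m → 0 < k → s < n →
      (4 * (m * k ^ m.primeFactors.card) ≤ s → 128 * (k + 1) ≤ s →
        ∃ N, N ≤ s ∧ 19 + 8 * k ≤ N ∧ Alike m k n N) ∧
      (n < k ^ m.primeFactors.card → ∀ N, N ≤ s → ¬ Alike m k n N)) := by
  refine ⟨?_, ?_, ?_⟩
  · intro m s n k hn
    exact ⟨fun N hN h8 ha R => php_lower_fun hN h8 hn ha R,
      fun h8 ha R => php_lower_bij h8 hn ha R⟩
  · obtain ⟨c1, h1⟩ := upper_fun
    obtain ⟨c2, h2⟩ := upper_bij
    refine ⟨c1 + c2, fun m s n k hsn => ⟨?_, ?_⟩⟩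
    · intro hlt hno
      obtain ⟨R, hR⟩ := h1 m s n k hsn hlt (by
        intro N hN
        rcases Nat.lt_or_ge (N + 1) k with h | h
        · exact ⟨N + 1, Nat.succ_pos N, h, Or.inl (Nat.lt_succ_self N)⟩
        · have h3 := hno N hN h
          unfold Alike at h3
          push Not at h3
          obtain ⟨i, hi0, hik, hi⟩ := h3
          rw [max_eq_left (by omega), min_eq_right (by omega)] at hi
          obtain ⟨i', h4, h5, h6⟩ := exists_choose_ne (m := m) (N := N) (n := n) (k := k)
            (by omega) ⟨i, hi0, hik, hi⟩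
          exact ⟨i', h4, h5, Or.inr h6⟩)
      refine ⟨R, hR.trans ?_⟩
      refine Nat.pow_le_pow_right (by omega) ?_
      rw [add_mul]
      exact Nat.le_add_right _ _
    · intro hne hno
      obtain ⟨i, hi0, hik, hi⟩ : ∃ i, 1 ≤ i ∧ i ≤ k ∧
          (((n.choose i : ℕ) : ZMod m) ≠ ((s.choose i : ℕ) : ZMod m) ∨
            (min n s < i ∧ i ≤ max n s)) := by
        rcases Nat.lt_or_ge (min n s + 1) k with h | h
        · exact ⟨min n s + 1, Nat.succ_pos _, h.le, Or.inr ⟨Nat.lt_succ_self _, by omega⟩⟩
        · have h3 := hno h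
          have h4 : ∃ i, 0 < i ∧ i < k ∧ ¬ m ∣ (max n s - min n s).choose i := by
            unfold Alike at h3
            push Not at h3
            exact h3
          classical
          obtain ⟨h5, h6, h7⟩ := Nat.find_spec h4
          refine ⟨Nat.find h4, h5, h6.le, Or.inl ?_⟩
          refine choose_ne_of_first h5 ?_ h7
          intro j hj hjk
          by_contra hc
          exact Nat.find_min h4 hjk ⟨hj, by omega, hc⟩
      obtain ⟨R, hR, hr⟩ := h2 m s n i hsn hi0 hi
      refine ⟨R, hR.trans ?_, fun a => (hr a).trans (Nat.le_add_left _ _)⟩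
      refine Nat.pow_le_pow_right (by omega) ?_
      exact Nat.mul_le_mul (Nat.le_add_left _ _) hik
  · intro m s n k hm hk hsn
    refine ⟨?_, ?_⟩
    · intro h4 h128
      have hP := per_pos m k
      have hPs : 4 * per m k ≤ s := (Nat.mul_le_mul_left 4 (per_le hm hk)).trans h4
      obtain ⟨N, d, e1, e2, e3⟩ := exists_size hP (by omega : per m k ≤ s) hsn
      refine ⟨N, by omega, by omega, ?_⟩
      intro i hi hik
      rw [show max n N - min n N = d * per m k by omega]
      exact dvd_choose_of_per_dvd hm hi hik (Dvd.intro_left d rfl)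
    · intro hnk N hN ha
      obtain ⟨i, hi0, hik, hi⟩ := exists_not_dvd_choose (m := m) (x := n - N) (k := k)
        (by omega) (by omega)
      have h3 := ha i hi0 hik
      rw [max_eq_left (by omega), min_eq_right (by omega)] at h3
      exact hi h3

end Pool.Agent.H88.PG
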