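import Pool.Agent.H88.PG.FunA
import Pool.Agent.H31.PH.Fin

/-!
# The upper bound for the functional pigeonhole principle
-/

set_option autoImplicit false

namespace Pool.Agent.H88.PG

open FirstOrder FirstOrder.Language Pool.H93.SY Pool.H31.SY Pool.H31.PH Pool.Agent.H88.SY
open scoped Pointwise

theorem card_sl_fin {s n K : ℕ} (hn : 0 < n) :
    Nat.card (Sl (Fin s) K) ≤ (s + n) ^ (3 * K) := by
  refine (card_sl (Fin s) K).trans ?_
  rw [Nat.card_eq_fintype_card (α := Fin s), Fintype.card_fin]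
  have h1 : (s + 1) ^ K ≤ (s + n) ^ K := Nat.pow_le_pow_left (by omega) K
  refine h1.trans (Nat.pow_le_pow_right (by omega) (by omega))

theorem card_xn {s K T : ℕ} (hsT : s + 2 ≤ T) (hcs : Nat.card (Sl (Fin s) K) ≤ T)
    (hK : K + 1 ≤ T) : Nat.card (Xn s K) ≤ 20 * T ^ 6 := by
  refine (Nat.card_le_card_of_injective _ Xn.code_injective).trans ?_
  rw [Nat.card_sum, Nat.card_sum, Nat.card_sum, Nat.card_sum, Nat.card_sum, Nat.card_prod,
    Nat.card_prod, Nat.card_prod, Nat.card_prod, Nat.card_prod, Nat.card_prod, Nat.card_prod,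
    Nat.card_prod, Nat.card_prod, Nat.card_prod, Nat.card_prod, Nat.card_prod, Nat.card_prod,
    Finite.card_option, Nat.card_eq_fintype_card (α := Bool),
    Nat.card_eq_fintype_card (α := Fin (s + 2)), Nat.card_eq_fintype_card (α := Fin (K + 1)),
    Nat.card_eq_fintype_card (α := Unit), Fintype.card_fin, Fintype.card_fin, Fintype.card_bool,
    Fintype.card_unit]
  have h1 : 1 ≤ T := by omega
  have hp : ∀ a : ℕ, a ≤ 6 → T ^ a ≤ T ^ 6 := fun a h => Nat.pow_le_pow_right h1 h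
  have hs3 : s + 2 + 1 ≤ 2 * T := by omega
  have t1 : (s + 2) * (s + 2) ≤ T ^ 6 := by
    calc (s + 2) * (s + 2) ≤ T * T := Nat.mul_le_mul hsT hsT
      _ = T ^ 2 := by ring
      _ ≤ T ^ 6 := hp 2 (by norm_num)
  have t2 : (K + 1) * ((s + 2) * (Nat.card (Sl (Fin s) K) * (s + 2 + 1))) ≤ 2 * T ^ 6 := by
    calc (K + 1) * ((s + 2) * (Nat.card (Sl (Fin s) K) * (s + 2 + 1)))
        ≤ T * (T * (T * (2 * T))) := Nat.mul_le_mul hK (Nat.mul_le_mul hsT
          (Nat.mul_le_mul hcs hs3))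
      _ = 2 * T ^ 4 := by ring
      _ ≤ 2 * T ^ 6 := Nat.mul_le_mul_left _ (hp 4 (by norm_num))
  have t3 : (K + 1) * ((s + 2) * Nat.card (Sl (Fin s) K)) ≤ T ^ 6 := by
    calc (K + 1) * ((s + 2) * Nat.card (Sl (Fin s) K))
        ≤ T * (T * T) := Nat.mul_le_mul hK (Nat.mul_le_mul hsT hcs)
      _ = T ^ 3 := by ring
      _ ≤ T ^ 6 := hp 3 (by norm_num)
  have t4 : (K + 1) * ((s + 2) * (Nat.card (Sl (Fin s) K) * (Nat.card (Sl (Fin s) K) *
      ((s + 2) * (s + 2 + 1))))) ≤ 2 * T ^ 6 := by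
    calc (K + 1) * ((s + 2) * (Nat.card (Sl (Fin s) K) * (Nat.card (Sl (Fin s) K) *
          ((s + 2) * (s + 2 + 1)))))
        ≤ T * (T * (T * (T * (T * (2 * T))))) := Nat.mul_le_mul hK (Nat.mul_le_mul hsT
          (Nat.mul_le_mul hcs (Nat.mul_le_mul hcs (Nat.mul_le_mul hsT hs3))))
      _ = 2 * T ^ 6 := by ring
  have t5 : 1 ≤ T ^ 6 := Nat.one_le_pow _ _ h1
  omega

/-- **Upper bound** for the functional pigeonhole principle. -/
theorem upper_fun : ∃ c : ℕ, ∀ m s n k : ℕ, 2 ≤ s + n → s < n →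
    (∀ N, N ≤ s → ∃ i, 0 < i ∧ i < k ∧
      (N < i ∨ ((n.choose i : ℕ) : ZMod m) ≠ ((N.choose i : ℕ) : ZMod m))) →
    ∃ R : Refutation php m s n (pigeons s n), R.size ≤ (s + n) ^ (c * k) := by
  obtain ⟨c0, hb⟩ := basic_fun
  obtain ⟨k1, hk1⟩ : ∃ k1, ∀ x : Sh php, ar php x ≤ k1 := by
    obtain ⟨k1, hk1⟩ := Finite.bddAbove_range (ar php)
    exact ⟨k1, fun x => hk1 ⟨x, rfl⟩⟩
  refine ⟨2 * c0 + Nat.card (Sh php) + k1 + 36, ?_⟩
  intro m s n K hN hsn hcond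
  have hK : 1 ≤ K := by
    obtain ⟨i, h1, h2, -⟩ := hcond 0 (Nat.zero_le _)
    omega
  obtain ⟨L0, g0, a0, b0, n0⟩ := hb m s n K (by omega)
  have hbd := bd (s := s) (n := n) hN hK
  have hcs := card_sl_fin (s := s) (K := K) (show 0 < n by omega)
  have h0 : 1 ≤ s + n := by omega
  have hsT : s + 2 ≤ (s + n) ^ (3 * K) := by
    have h1 : (s + n) ^ 3 ≤ (s + n) ^ (3 * K) := Nat.pow_le_pow_right h0 (by omega)
    refine le_trans ?_ h1
    have h2 : (s + n) * 4 ≤ (s + n) ^ 3 := by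
      have h3 : 2 ^ 2 ≤ (s + n) ^ 2 := Nat.pow_le_pow_left hN 2
      calc (s + n) * 4 ≤ (s + n) * (s + n) ^ 2 := Nat.mul_le_mul_left _ h3
        _ = (s + n) ^ 3 := by ring
    omega
  obtain ⟨L1, g1, e1, n1⟩ := all_fun (ψ := php) (m := m) g0 a0 b0 hbd hsT hcs hsn hcond
  refine ⟨toRef g1 e1, ?_⟩
  show Nat.card (FN php s n K) + L1.ncard ≤ _
  have h2 : Nat.card (FN php s n K) = Nat.card (Nx php s n K) + Nat.card (Xn s K) :=
    Nat.card_sum
  rw [h2]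
  have h3 := card_nx (ψ := php) hbd
  have h3' := card_xn hsT hcs hbd.k
  have h4 := card_nd (ψ := php) (r := s) (n := n) hk1 (by omega)
  have hp : ∀ a b : ℕ, a ≤ b → (s + n) ^ a ≤ (s + n) ^ b := fun a b h =>
    Nat.pow_le_pow_right h0 h
  have h2p : ∀ a : ℕ, 2 ^ a ≤ (s + n) ^ a := fun a => Nat.pow_le_pow_left hN a
  have hl : ∀ a : ℕ, a ≤ (s + n) ^ a := fun a =>
    (Nat.lt_two_pow_self).le.trans (h2p a)
  obtain ⟨Q, hQ⟩ : ∃ Q, Q = (2 * c0 + Nat.card (Sh php) + k1 + 33) * K := ⟨_, rfl⟩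
  have hQi : 2 * c0 + Nat.card (Sh php) + k1 + 33 * K ≤ Q := by
    rw [hQ, add_mul]
    exact Nat.add_le_add_right (Nat.le_mul_of_pos_right _ hK) _
  have t1 : Nat.card (Sh php) * (s + n) ^ k1 ≤ (s + n) ^ Q := by
    refine (Nat.mul_le_mul_right _ (hl _)).trans ?_
    rw [← pow_add]
    exact hp _ _ (by omega)
  have t2 : 13 * ((s + n) ^ (3 * K)) ^ 2 ≤ (s + n) ^ Q := by
    have : 13 ≤ (s + n) ^ 4 := le_trans (by norm_num) (h2p 4)
    refine (Nat.mul_le_mul_right _ this).trans ?_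
    rw [← pow_mul, ← pow_add]
    exact hp _ _ (by omega)
  have t3 : c0 * (s + n) ^ c0 ≤ (s + n) ^ Q := by
    refine (Nat.mul_le_mul_right _ (hl _)).trans ?_
    rw [← pow_add]
    exact hp _ _ (by omega)
  have t4 : 400 * ((s + n) ^ (3 * K)) ^ 5 ≤ (s + n) ^ Q := by
    have : 400 ≤ (s + n) ^ 9 := le_trans (by norm_num) (h2p 9)
    refine (Nat.mul_le_mul_right _ this).trans ?_
    rw [← pow_mul, ← pow_add]
    exact hp _ _ (by omega)
  have t5 : 20 * ((s + n) ^ (3 * K)) ^ 6 ≤ (s + n) ^ Q := by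
    have : 20 ≤ (s + n) ^ 5 := le_trans (by norm_num) (h2p 5)
    refine (Nat.mul_le_mul_right _ this).trans ?_
    rw [← pow_mul, ← pow_add]
    exact hp _ _ (by omega)
  have t6 : 8 * (s + n) ^ Q ≤ (s + n) ^ ((2 * c0 + Nat.card (Sh php) + k1 + 36) * K) := by
    have : 8 ≤ (s + n) ^ 3 := le_trans (by norm_num) (h2p 3)
    refine (Nat.mul_le_mul_right _ this).trans ?_
    rw [← pow_add]
    refine hp _ _ ?_
    have e1 : (2 * c0 + Nat.card (Sh php) + k1 + 36) * K =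
        (2 * c0 + Nat.card (Sh php) + k1 + 33) * K + 3 * K := by ring
    rw [e1, ← hQ]
    omega
  omega

end Pool.Agent.H88.PG
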