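import Pool.Agent.H88.PG.Cl
import Pool.Agent.H88.PG.Cnt
import Pool.Agent.H88.PG.CaseB

/-!
# All lines of the refutation of the functional pigeonhole principle
-/

set_option autoImplicit false

namespace Pool.Agent.H88.PG

open FirstOrder FirstOrder.Language Pool.H93.SY Pool.H31.SY Pool.H31.PH Pool.Agent.H88.SY
open scoped Pointwise

variable {ψ : phpL.Sentence} {s n K : ℕ}
variable [HasSits ψ] {m : ℕ}
variable {D : Set (Atom phpL (Fin s ⊕ Fin n) × Bool)} {Ls : Set (Set (Lit (FN ψ s n K)))}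

theorem st_excl {P : Set (Set (Lit (FN ψ s n K)))} {Γ : Set (Lit (FN ψ s n K))}
    {a b : FN ψ s n K} {c d : ZMod m} {S : Set (Lit (FN ψ s n K))} (h1 : gf m a = .mod c S)
    (h2 : gf m b = .mod d S) (h3 : c ≠ d) (h4 : (⟨a, false⟩ : Lit (FN ψ s n K)) ∈ Γ)
    (h5 : (⟨b, false⟩ : Lit (FN ψ s n K)) ∈ Γ) : Step ψ D (fc ψ m s n K) P Γ :=
  .excl (C := fc ψ m s n K) h1 h2 h3 h4 h5

/-- The number of the matchings of size `i` excludes `N`. -/
theorem case_a (hg : GoodD ψ D (fc ψ m s n K) Ls) {N : ℕ} (hN : N ≤ s) {i : Fin (K + 1)}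
    (hne : ((n.choose i.val : ℕ) : ZMod m) ≠ ((N.choose i.val : ℕ) : ZMod m))
    {B : Sl (Fin s) K} (hB : B.set = ∅) (hcl : cl ψ s n K i s N B ∈ Ls)
    (htot : {(⟨old (.tot true i), true⟩ : Lit (FN ψ s n K))} ∈ Ls) :
    DR ψ D (C := fc ψ m s n K) Ls 7 {tn ψ s n K s N} := by
  have hfx : Fx (C := fc ψ m s n K) {tn ψ s n K s N} := fx_singleton (fl_tn _ _)
  refine DR.cut (C := fc ψ m s n K) (r := 3) (r' := 3) hg
    (new (.zg i (fz s s) B ((some N).map (fz s))) : FN ψ s n K) ?_ ?_ hfx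
  · have hfx2 := fx_insert (m := m) (fl_zgl (ψ := ψ) (n := n) i s B (some N)) hfx
    refine DR.cut (C := fc ψ m s n K) (r := 1) (r' := 1) hg
      (old (.y (vb n B)) : FN ψ s n K) ?_ ?_ hfx2
    · exact y_empty hg (fx_insert (fl_yl _ _) hfx2) hB (Or.inl rfl)
    · refine DR.weak (C := fc ψ m s n K) (r := 0) hg (DR.base (C := fc ψ m s n K) hg hcl)
        (fx_insert (fl_yl _ _) hfx2) ?_
      rintro x (rfl | rfl | rfl)
      · exact Or.inr (Or.inr rfl)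
      · exact Or.inl rfl
      · exact Or.inr (Or.inl rfl)
  · have hfl : ∀ b, Fl (⟨old (.tot true i), b⟩ : Lit (FN ψ s n K)) := fun b σ => rfl
    have hfx2 := fx_insert (m := m) (fl_new (ψ := ψ) (n := n)
      (.zg i (fz s s) B ((some N).map (fz s))) false) hfx
    refine DR.cut (C := fc ψ m s n K) (r := 1) (r' := 1) hg
      (old (.tot true i) : FN ψ s n K) ?_ ?_ hfx2
    · refine DR.weak (C := fc ψ m s n K) (r := 0) hg (DR.base (C := fc ψ m s n K) hg htot)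
        (fx_insert (hfl true) hfx2) ?_
      intro x hx
      exact Or.inl hx
    · refine DR.step0 (C := fc ψ m s n K) hg (fx_insert (hfl false) hfx2) ?_
      have h1 : gf m (old (.tot true i) : FN ψ s n K) =
          .mod ((n.choose i.val : ℕ) : ZMod m) (zs ψ n K i.val s B.set) := by
        show Gate.mod ((n.choose i.val : ℕ) : ZMod m) (mapL old ''
          {x : Lit (Nx ψ s n K) | ∃ h : Sl (Ed s n) K, (Mt h.set ∧ h.set.card = i.val) ∧
            x = ⟨.M h, true⟩}) = _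
        refine congrArg (Gate.mod _) ?_
        ext x
        constructor
        · rintro ⟨_, ⟨h, ⟨h2, h3⟩, rfl⟩, rfl⟩
          exact ⟨h, ⟨h2, h3, fun t ht => absurd t.isLt (by omega)⟩, rfl⟩
        · rintro ⟨h, ⟨h2, h3, -⟩, rfl⟩
          exact ⟨_, ⟨h, ⟨h2, h3⟩, rfl⟩, rfl⟩
      have h2 : gf m (new (.zg i (fz s s) B ((some N).map (fz s))) : FN ψ s n K) =
          .mod ((N.choose i.val : ℕ) : ZMod m) (zs ψ n K i.val s B.set) := by
        rw [gate_zg i (by omega) B (some_le (by omega))]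
        have e : cn i.val B.set (some N) = N.choose i.val := by
          show (if B.set.card ≤ i.val then N.choose (i.val - B.set.card) else 0) = _
          rw [hB, Finset.card_empty, if_pos (Nat.zero_le _), Nat.sub_zero]
        rw [e]
      exact st_excl h1 h2 hne (Or.inl rfl) (Or.inr (Or.inl rfl))

/-- All lines. -/
theorem all_fun {T : ℕ} {Ls : Set (Set (Lit (Nx ψ s n K)))} (hg : GoodD ψ D (pc ψ m s n K) Ls)
    (hLC : ∀ e e', Cf e e' → LC e e' ∈ Ls) (hLV : ∀ v : Vx s n, sd v = true → LV v ∈ Ls)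
    (hT : Bd s n K T) (hsT : s + 2 ≤ T) (hcs : Nat.card (Sl (Fin s) K) ≤ T) (hsn : s < n)
    (hcond : ∀ N, N ≤ s → ∃ i, 0 < i ∧ i < K ∧
      (N < i ∨ ((n.choose i : ℕ) : ZMod m) ≠ ((N.choose i : ℕ) : ZMod m))) :
    ∃ Ls' : Set (Set (Lit (FN ψ s n K))), GoodD ψ D (fc ψ m s n K) Ls' ∧ ∅ ∈ Ls' ∧
      Ls'.ncard ≤ Ls.ncard + 400 * T ^ 5 := by
  obtain ⟨L1, g1, -, l1, n1⟩ := common hg hLC {true}
    (fun v hv => hLV v hv) hT
  -- transport
  obtain ⟨L2, hL2⟩ : ∃ L2 : Set (Set (Lit (FN ψ s n K))), L2 = (fun Γ => mapL old '' Γ) '' L1 :=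
    ⟨_, rfl⟩
  have g2 : GoodD ψ D (fc ψ m s n K) L2 := by
    rw [hL2]
    exact goodD_map' (C₀ := pc ψ m s n K) (C := fc ψ m s n K) old old_injective
      (fun a => rfl) (fun σ a => rfl) g1
  have n2 : L2.ncard ≤ L1.ncard := by
    have : Finite (Lit (Nx ψ s n K)) := finite_lit (pc ψ m s n K)
    rw [hL2]
    exact Set.ncard_image_le (Set.toFinite _)
  have hyb : ∀ B : Sl (Fin s) K,
      {yl ψ n B false, (⟨old (.b (vb n B)), true⟩ : Lit (FN ψ s n K))} ∈ L2 := by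
    intro B
    rw [hL2]
    exact ⟨_, l1.yb (vb n B) ⟨false, side_vb B⟩, Set.image_pair _ _ _⟩
  have hM : ∀ h : Sl (Ed s n) K, Mt h.set → {yl ψ n (hs h) true, Ml ψ h false} ∈ L2 := by
    intro h hm
    rw [hL2]
    exact ⟨_, l1.occ (vb n (hs h)) h (mem_ha_hs hm), Set.image_pair _ _ _⟩
  have hth : ∀ A : Sl (Vx s n) K, (∀ v ∈ A.set, sd v = true) →
      (mapL old '' TH A : Set (Lit (FN ψ s n K))) ∈ L2 := by
    intro A hA
    rw [hL2]
    exact ⟨_, l1.th A ⟨true, rfl, hA⟩, rfl⟩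
  have htot : ∀ i : Fin (K + 1), {(⟨old (.tot true i), true⟩ : Lit (FN ψ s n K))} ∈ L2 := by
    intro i
    rw [hL2]
    exact ⟨_, l1.tot true rfl i, Set.image_singleton⟩
  -- subsets
  have hdr : ∀ x ∈ {x : Sl (Fin s) K × Sl (Fin s) K | x.2.set ⊆ x.1.set},
      DR ψ D (C := fc ψ m s n K) L2 (2 * K + 1) {yl ψ n x.1 false, yl ψ n x.2 true} := by
    rintro ⟨B, B'⟩ hB
    exact y_mono g2 (fx_insert (fl_yl _ _) (fx_singleton (fl_yl _ _))) hB (Or.inl rfl)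
      (Or.inr rfl)
  obtain ⟨Q3, g3, l3, n3⟩ := DR.many (C := fc ψ m s n K) g2
    (fun x : Sl (Fin s) K × Sl (Fin s) K =>
      ({yl ψ n x.1 false, yl ψ n x.2 true} : Set (Lit (FN ψ s n K)))) _ hdr
  obtain ⟨L3, hL3⟩ : ∃ L3 : Set (Set (Lit (FN ψ s n K))), L3 = L2 ∪ Q3 := ⟨_, rfl⟩
  have g3' : GoodD ψ D (fc ψ m s n K) L3 := by
    rw [hL3]
    exact g3
  have s3 : L2 ⊆ L3 := by
    rw [hL3]
    exact Set.subset_union_left
  have l3' : ∀ B B' : Sl (Fin s) K, B'.set ⊆ B.set →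
      {yl ψ n B false, yl ψ n B' true} ∈ L3 := by
    intro B B' h
    rw [hL3]
    exact l3 (B, B') h
  have n3' : L3.ncard ≤ L2.ncard + (2 * K + 1) * (T * T) := by
    rw [hL3]
    refine (Set.ncard_union_le L2 Q3).trans (Nat.add_le_add_left (n3.trans ?_) _)
    refine Nat.mul_le_mul_left _ ?_
    refine (Set.ncard_le_ncard (Set.subset_univ _) (Set.toFinite _)).trans ?_
    rw [Set.ncard_univ, Nat.card_prod]
    exact Nat.mul_le_mul hcs hcs
  obtain ⟨L4, g4, s4, -, l4, n4⟩ := zero_lines g3' (fun h hm => s3 (hM h hm)) l3'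
  obtain ⟨L5, g5, s5, l5, n5⟩ := cl_lines g4 (fun B => s4 (s3 (hyb B))) l4 s le_rfl
  obtain ⟨L6, g6, s6, l6, n6⟩ := bl_lines g5 s le_rfl
  have s26 : L2 ⊆ L6 := fun x hx => s6 (s5 (s4 (s3 hx)))
  have hN : ∀ N ≤ s, DR ψ D (C := fc ψ m s n K) L6
      (8 * (Nat.card (Sl (Vx s n) K) * Nat.card (Sl (Ed s n) K) + 1)) {tn ψ s n K s N} := by
    intro N hN
    obtain ⟨i, hi0, hiK, hi⟩ := hcond N hN
    rcases hi with hi | hi
    · exact case_b g6 (by omega) hN (by omega) (fun h hm => s26 (hM h hm))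
        (fun B hB => l6 N B hN (fun t _ => t.isLt) hB) (fun A hA => s26 (hth A hA))
    · refine (case_a (i := ⟨i, by omega⟩) (B := ⟨∅, Nat.zero_le _⟩) g6 hN hi rfl
        (s6 (l5 ⟨i, by omega⟩ N ⟨∅, Nat.zero_le _⟩ hiK hN
          fun t ht => absurd ht (Finset.notMem_empty t)))
        (s26 (htot ⟨i, by omega⟩))).mono (by omega)
  obtain ⟨Q, g7, l7, n7⟩ := empty_of g6 hN
  have n7' : (L6 ∪ Q).ncard ≤ L6.ncard + Q.ncard := Set.ncard_union_le L6 Q
  refine ⟨L6 ∪ Q, g7, l7, n7'.trans ?_⟩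
  have h1 : 1 ≤ T := le_trans (Nat.le_add_left 1 K) hT.k
  have hp : ∀ a b : ℕ, a ≤ b → T ^ a ≤ T ^ b := fun a b h => Nat.pow_le_pow_right h1 h
  have t1 : 250 * T ^ 4 ≤ 250 * T ^ 5 := Nat.mul_le_mul_left _ (hp _ _ (by norm_num))
  have t2 : (2 * K + 1) * (T * T) ≤ 2 * T ^ 5 := by
    have : 2 * K + 1 ≤ 2 * T := by
      have := hT.k
      omega
    calc (2 * K + 1) * (T * T) ≤ (2 * T) * (T * T) := Nat.mul_le_mul_right _ this
      _ = 2 * T ^ 3 := by ring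
      _ ≤ 2 * T ^ 5 := Nat.mul_le_mul_left _ (hp _ _ (by norm_num))
  have t3 : 8 * ((K + 1) * ((s + 2) * (Nat.card (Sl (Fin s) K) *
      Nat.card (Sl (Ed s n) K)))) ≤ 8 * T ^ 5 := by
    calc 8 * ((K + 1) * ((s + 2) * (Nat.card (Sl (Fin s) K) * Nat.card (Sl (Ed s n) K))))
        ≤ 8 * (T * (T * (T * T))) := Nat.mul_le_mul_left _ (Nat.mul_le_mul hT.k
          (Nat.mul_le_mul hsT (Nat.mul_le_mul hcs hT.se)))
      _ = 8 * T ^ 4 := by ring
      _ ≤ 8 * T ^ 5 := Nat.mul_le_mul_left _ (hp _ _ (by norm_num))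
  have t4 : (s + 1) * ((8 * K + 39) * ((K + 1) * ((s + 2) * Nat.card (Sl (Fin s) K)))) ≤
      47 * T ^ 5 := by
    have h2 : 8 * K + 39 ≤ 47 * T := by
      have := hT.k
      omega
    calc (s + 1) * ((8 * K + 39) * ((K + 1) * ((s + 2) * Nat.card (Sl (Fin s) K))))
        ≤ T * ((47 * T) * (T * (T * T))) := Nat.mul_le_mul (by omega) (Nat.mul_le_mul h2
          (Nat.mul_le_mul hT.k (Nat.mul_le_mul hsT hcs)))
      _ = 47 * T ^ 5 := by ring
  have t5 : s * ((4 * K + 15) * ((s + 2) * Nat.card (Sl (Fin s) K))) ≤ 19 * T ^ 5 := by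
    have h2 : 4 * K + 15 ≤ 19 * T := by
      have := hT.k
      omega
    calc s * ((4 * K + 15) * ((s + 2) * Nat.card (Sl (Fin s) K)))
        ≤ T * ((19 * T) * (T * T)) := Nat.mul_le_mul (by omega) (Nat.mul_le_mul h2
          (Nat.mul_le_mul hsT hcs))
      _ = 19 * T ^ 4 := by ring
      _ ≤ 19 * T ^ 5 := Nat.mul_le_mul_left _ (hp _ _ (by norm_num))
  have t6 : 2 + 14 * (s * (s + 1)) + (8 * (Nat.card (Sl (Vx s n) K) *
      Nat.card (Sl (Ed s n) K) + 1) + 2) * (s + 1) ≤ 34 * T ^ 5 := by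
    have e1 : s * (s + 1) ≤ T * T := Nat.mul_le_mul (by omega) (by omega)
    have e2 : (8 * (Nat.card (Sl (Vx s n) K) * Nat.card (Sl (Ed s n) K) + 1) + 2) * (s + 1) ≤
        (18 * (T * T)) * T := by
      refine Nat.mul_le_mul ?_ (by omega)
      have e3 := Nat.mul_le_mul hT.sv hT.se
      have e4 : 1 ≤ T * T := Nat.one_le_iff_ne_zero.2 (by positivity)
      omega
    have e5 : T * T ≤ T ^ 5 := by
      have := hp 2 5 (by norm_num)
      rwa [pow_two] at this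
    have e6 : (18 * (T * T)) * T ≤ 18 * T ^ 5 := by
      calc (18 * (T * T)) * T = 18 * T ^ 3 := by ring
        _ ≤ 18 * T ^ 5 := Nat.mul_le_mul_left _ (hp _ _ (by norm_num))
    have e7 : 1 ≤ T ^ 5 := Nat.one_le_pow _ _ h1
    omega
  have e1 : L6.ncard + Q.ncard ≤ Ls.ncard + (250 * T ^ 5 + 2 * T ^ 5 + 8 * T ^ 5 + 47 * T ^ 5 +
      19 * T ^ 5 + 34 * T ^ 5) := by
    generalize T ^ 5 = x at *
    omega
  refine e1.trans (Nat.add_le_add_left ?_ _)
  generalize T ^ 5 = x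
  omega

end Pool.Agent.H88.PG
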