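import Pool.Agent.H88.PG.Tau

/-!
# Rules for sets of occupied holes
-/

set_option autoImplicit false

namespace Pool.Agent.H88.PG

open FirstOrder FirstOrder.Language Pool.H93.SY Pool.H31.SY Pool.H31.PH Pool.Agent.H88.SY
open scoped Pointwise

variable {ψ : phpL.Sentence} {s n K : ℕ}

/-- A set of holes as a set of vertices. -/
def vb (n : ℕ) (B : Sl (Fin s) K) : Sl (Vx s n) K :=
  ⟨B.set.image (fun t => (Sum.inl t : Vx s n)), Finset.card_image_le.trans B.card⟩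

theorem mem_vb {B : Sl (Fin s) K} {v : Vx s n} :
    v ∈ (vb n B).set ↔ ∃ t ∈ B.set, (Sum.inl t : Vx s n) = v :=
  Finset.mem_image

theorem vb_smul (σ : Equiv.Perm (Fin n)) (B : Sl (Fin s) K) : σ • vb n B = vb n B := by
  apply Sl.ext
  ext v
  constructor
  · intro hv
    obtain ⟨w, hw, rfl⟩ := mem_smul_sl.1 hv
    obtain ⟨t, ht, rfl⟩ := mem_vb.1 hw
    exact mem_vb.2 ⟨t, ht, rfl⟩
  · intro hv
    obtain ⟨t, ht, rfl⟩ := mem_vb.1 hv
    exact mem_smul_sl.2 ⟨_, mem_vb.2 ⟨t, ht, rfl⟩, rfl⟩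

theorem card_vb (B : Sl (Fin s) K) : (vb n B).set.card = B.set.card :=
  Finset.card_image_of_injective _ fun _ _ h => Sum.inl_injective h

theorem side_vb (B : Sl (Fin s) K) : ∀ v ∈ (vb n B).set, sd v = false := by
  intro v hv
  obtain ⟨t, -, rfl⟩ := mem_vb.1 hv
  rfl

/-- The signed node: all holes in `B` are occupied. -/
def yl (ψ : phpL.Sentence) (n : ℕ) (B : Sl (Fin s) K) (b : Bool) : Lit (FN ψ s n K) :=
  ⟨old (.y (vb n B)), b⟩

theorem fl_yl (B : Sl (Fin s) K) (b : Bool) : Fl (yl ψ n B b) := by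
  intro σ
  show (⟨old (.y (σ • vb n B)), b⟩ : Lit (FN ψ s n K)) = _
  rw [vb_smul]
  rfl

variable [HasSits ψ] {m : ℕ}

theorem gate_y (B : Sl (Fin s) K) :
    (fc ψ m s n K).gate (old (.y (vb n B)) : FN ψ s n K) =
      .and {x : Lit (FN ψ s n K) | ∃ t ∈ B.set, x = zl ψ n K t false} := by
  refine congrArg Gate.and ?_
  ext x
  constructor
  · rintro ⟨_, ⟨v, hv, rfl⟩, rfl⟩
    obtain ⟨t, ht, rfl⟩ := mem_vb.1 hv
    exact ⟨t, ht, rfl⟩
  · rintro ⟨t, ht, rfl⟩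
    exact ⟨_, ⟨_, mem_vb.2 ⟨t, ht, rfl⟩, rfl⟩, rfl⟩

omit [HasSits ψ] in
theorem ncard_zs (B : Sl (Fin s) K) :
    {x : Lit (FN ψ s n K) | ∃ t ∈ B.set, x = zl ψ n K t false}.ncard ≤ K := by
  classical
  have e : {x : Lit (FN ψ s n K) | ∃ t ∈ B.set, x = zl ψ n K t false} =
      (fun t => zl ψ n K t false) '' (B.set : Set (Fin s)) := by
    ext x
    constructor
    · rintro ⟨t, ht, rfl⟩
      exact ⟨t, ht, rfl⟩
    · rintro ⟨t, ht, rfl⟩
      exact ⟨t, ht, rfl⟩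
  rw [e]
  refine (Set.ncard_image_le (Set.toFinite _)).trans ?_
  rw [Set.ncard_coe_finset]
  exact B.card

variable {D : Set (Atom phpL (Fin s ⊕ Fin n) × Bool)} {Ls : Set (Set (Lit (FN ψ s n K)))}

/-- An element of an occupied set is occupied. -/
theorem y_elim (hg : GoodD ψ D (fc ψ m s n K) Ls) {Γ : Set (Lit (FN ψ s n K))}
    (hΓ : Fx (C := fc ψ m s n K) Γ) {B : Sl (Fin s) K} {t : Fin s} (ht : t ∈ B.set)
    (h1 : yl ψ n B false ∈ Γ) (h2 : zl ψ n K t false ∈ Γ) :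
    DR ψ D (C := fc ψ m s n K) Ls 2 Γ := by
  refine DR.andE (C := fc ψ m s n K) (r := 1) (a := (old (.y (vb n B)) : FN ψ s n K)) hg
    (gate_y B) h1 hΓ ?_
  refine dr_ident hg (old (.z (Sum.inl t))) (Or.inr ⟨_, ⟨t, ht, rfl⟩, rfl⟩) (Or.inl h2) ?_
  refine fx_union hΓ (fx_of ?_)
  rintro _ ⟨_, ⟨t, ht, rfl⟩, rfl⟩
  exact fl_zl _ _

/-- A set is occupied if all its elements are. -/
theorem y_intro {r : ℕ} (hg : GoodD ψ D (fc ψ m s n K) Ls) {Γ : Set (Lit (FN ψ s n K))}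
    (hΓ : Fx (C := fc ψ m s n K) Γ) {B : Sl (Fin s) K} (h1 : yl ψ n B true ∈ Γ)
    (h : ∀ t ∈ B.set, DR ψ D (C := fc ψ m s n K) Ls r (insert (zl ψ n K t false) Γ)) :
    DR ψ D (C := fc ψ m s n K) Ls (r * K + 1) Γ := by
  refine DR.andI' (C := fc ψ m s n K) (a := (old (.y (vb n B)) : FN ψ s n K)) hg
    (gate_y B) (ncard_zs B) h1 hΓ ?_
  rintro _ ⟨t, ht, rfl⟩
  exact h t ht

/-- A subset of an occupied set is occupied. -/
theorem y_mono (hg : GoodD ψ D (fc ψ m s n K) Ls) {Γ : Set (Lit (FN ψ s n K))}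
    (hΓ : Fx (C := fc ψ m s n K) Γ) {B B' : Sl (Fin s) K} (hB : B'.set ⊆ B.set)
    (h1 : yl ψ n B false ∈ Γ) (h2 : yl ψ n B' true ∈ Γ) :
    DR ψ D (C := fc ψ m s n K) Ls (2 * K + 1) Γ :=
  y_intro hg hΓ h2 fun _ ht => y_elim hg (fx_insert (fl_zl _ _) hΓ) (hB ht) (Or.inr h1)
    (Or.inl rfl)

/-- One more occupied hole. -/
theorem y_add (hg : GoodD ψ D (fc ψ m s n K) Ls) {Γ : Set (Lit (FN ψ s n K))}
    (hΓ : Fx (C := fc ψ m s n K) Γ) {B B' : Sl (Fin s) K} {t : Fin s}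
    (hB : ∀ u ∈ B'.set, u = t ∨ u ∈ B.set) (h0 : zl ψ n K t true ∈ Γ)
    (h1 : yl ψ n B false ∈ Γ) (h2 : yl ψ n B' true ∈ Γ) :
    DR ψ D (C := fc ψ m s n K) Ls (2 * K + 1) Γ := by
  refine y_intro hg hΓ h2 fun u hu => ?_
  have hfx := fx_insert (m := m) (fl_zl (ψ := ψ) (n := n) (K := K) u false) hΓ
  rcases hB u hu with rfl | hu
  · exact (dr_ident hg (old (.z (Sum.inl u))) (Or.inr h0) (Or.inl rfl) hfx).mono (by omega)
  · exact y_elim hg hfx hu (Or.inr h1) (Or.inl rfl)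

/-- The empty set is occupied. -/
theorem y_empty (hg : GoodD ψ D (fc ψ m s n K) Ls) {Γ : Set (Lit (FN ψ s n K))}
    (hΓ : Fx (C := fc ψ m s n K) Γ) {B : Sl (Fin s) K} (hB : B.set = ∅)
    (h1 : yl ψ n B true ∈ Γ) : DR ψ D (C := fc ψ m s n K) Ls 1 Γ := by
  have h := y_intro (r := 0) hg hΓ h1 (by
    intro t ht
    rw [hB] at ht
    exact absurd ht (Finset.notMem_empty t))
  rwa [zero_mul, zero_add] at h

/-! ### More than `N` occupied holes -/

/-- The line: `N` of the first `j` holes are occupied, so `B` is not. -/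
def bl (ψ : phpL.Sentence) (s n K : ℕ) (j N : ℕ) (B : Sl (Fin s) K) : Set (Lit (FN ψ s n K)) :=
  {tn ψ s n K j N, yl ψ n B false}

theorem bl_fx (j N : ℕ) (B : Sl (Fin s) K) : Fx (C := fc ψ m s n K) (bl ψ s n K j N B) :=
  fx_insert (fl_tn _ _) (fx_singleton (fl_yl _ _))

theorem bl_step {j N : ℕ} (hj : j < s) (hN : N ≤ s) (hg : GoodD ψ D (fc ψ m s n K) Ls)
    (hl : ∀ (N' : ℕ) (B' : Sl (Fin s) K), N' ≤ s → (∀ t ∈ B'.set, t.val < j) →
      N' < B'.set.card → bl ψ s n K j N' B' ∈ Ls)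
    (B : Sl (Fin s) K) (hB : ∀ t ∈ B.set, t.val < j + 1) (hc : N < B.set.card) :
    DR ψ D (C := fc ψ m s n K) Ls (4 * K + 15) (bl ψ s n K (j + 1) N B) := by
  classical
  have hfx : Fx (C := fc ψ m s n K) {yl ψ n B false} := fx_singleton (fl_yl _ _)
  refine (tau_elim (r := 2 * K + 5) (N := N) hj (by omega) hg hfx ?_ ?_).mono (by omega)
  · intro hN0
    -- the set without `j`
    let B' : Sl (Fin s) K := ⟨B.set.erase ⟨j, hj⟩, (Finset.card_erase_le).trans B.card⟩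
    have h1 : ∀ t ∈ B'.set, t.val < j := by
      intro t ht
      obtain ⟨h2, h3⟩ := Finset.mem_erase.1 ht
      have h4 := hB t h3
      have h5 : t.val ≠ j := fun e => h2 (Fin.ext e)
      omega
    have h2 : N - 1 < B'.set.card := by
      have h3 := Finset.pred_card_le_card_erase (s := B.set) (a := (⟨j, hj⟩ : Fin s))
      show N - 1 < (B.set.erase ⟨j, hj⟩).card
      omega
    have h3 := hl (N - 1) B' (by omega) h1 h2
    have hfx2 : Fx (C := fc ψ m s n K) (insert (tn ψ s n K j (N - 1))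
        (insert (zl ψ n K ⟨j, hj⟩ true) {yl ψ n B false})) :=
      fx_insert (fl_tn _ _) (fx_insert (fl_zl _ _) hfx)
    refine (DR.cut (C := fc ψ m s n K) (r := 2 * K + 1) (r' := 1) hg
      (old (.y (vb n B')) : FN ψ s n K) ?_ ?_ hfx2).mono (by omega)
    · exact y_mono (B := B) (B' := B') hg (fx_insert (fl_yl _ _) hfx2) (Finset.erase_subset _ _)
        (Or.inr (Or.inr (Or.inr rfl))) (Or.inl rfl)
    · refine DR.weak (C := fc ψ m s n K) (r := 0) hg (DR.base (C := fc ψ m s n K) hg h3)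
        (fx_insert (fl_yl _ _) hfx2) ?_
      rintro x (rfl | rfl)
      · exact Or.inr (Or.inl rfl)
      · exact Or.inl rfl
  · have hfx2 : Fx (C := fc ψ m s n K) (insert (tn ψ s n K j N)
        (insert (zl ψ n K ⟨j, hj⟩ false) {yl ψ n B false})) :=
      fx_insert (fl_tn _ _) (fx_insert (fl_zl _ _) hfx)
    by_cases hmem : (⟨j, hj⟩ : Fin s) ∈ B.set
    · exact (y_elim (B := B) hg hfx2 hmem (Or.inr (Or.inr rfl)) (Or.inr (Or.inl rfl))).mono
        (by omega)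
    · have h1 : ∀ t ∈ B.set, t.val < j := by
        intro t ht
        have h4 := hB t ht
        have h5 : t.val ≠ j := fun e => hmem (by
          have : t = ⟨j, hj⟩ := Fin.ext e
          rwa [← this])
        omega
      refine (DR.weak (C := fc ψ m s n K) (r := 0) hg (DR.base (C := fc ψ m s n K) hg
        (hl N B hN h1 hc)) hfx2 ?_).mono (by omega)
      rintro x (rfl | rfl)
      · exact Or.inl rfl
      · exact Or.inr (Or.inr rfl)

/-- All lines `bl` up to `j`. -/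
theorem bl_lines (hg : GoodD ψ D (fc ψ m s n K) Ls) : ∀ j, j ≤ s →
    ∃ Ls' : Set (Set (Lit (FN ψ s n K))), GoodD ψ D (fc ψ m s n K) Ls' ∧ Ls ⊆ Ls' ∧
      (∀ (N : ℕ) (B : Sl (Fin s) K), N ≤ s → (∀ t ∈ B.set, t.val < j) → N < B.set.card →
        bl ψ s n K j N B ∈ Ls') ∧
      Ls'.ncard ≤ Ls.ncard + j * ((4 * K + 15) * ((s + 2) * Nat.card (Sl (Fin s) K))) := by
  intro j
  induction j with
  | zero =>
    intro _
    refine ⟨Ls, hg, subset_rfl, ?_, by omega⟩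
    intro N B _ hB hc
    obtain ⟨t, ht⟩ := Finset.card_pos.1 (by omega : 0 < B.set.card)
    exact absurd (hB t ht) (by omega)
  | succ j ih =>
    intro hj
    obtain ⟨L1, hg1, hs1, hl1, hc1⟩ := ih (by omega)
    have hdr : ∀ x ∈ {x : Fin (s + 2) × Sl (Fin s) K | x.1.val ≤ s ∧
        (∀ t ∈ x.2.set, t.val < j + 1) ∧ x.1.val < x.2.set.card},
        DR ψ D (C := fc ψ m s n K) L1 (4 * K + 15) (bl ψ s n K (j + 1) x.1.val x.2) := by
      rintro ⟨N, B⟩ ⟨h1, h2, h3⟩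
      exact bl_step (by omega) h1 hg1 hl1 B h2 h3
    obtain ⟨Q, hg2, hl2, hc2⟩ := DR.many (C := fc ψ m s n K) hg1
      (fun x : Fin (s + 2) × Sl (Fin s) K => bl ψ s n K (j + 1) x.1.val x.2) _ hdr
    refine ⟨L1 ∪ Q, hg2, hs1.trans Set.subset_union_left, ?_, ?_⟩
    · intro N B hN hB hc
      exact hl2 (⟨N, by omega⟩, B) ⟨hN, hB, hc⟩
    · have h1 : {x : Fin (s + 2) × Sl (Fin s) K | x.1.val ≤ s ∧
        (∀ t ∈ x.2.set, t.val < j + 1) ∧ x.1.val < x.2.set.card}.ncard ≤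
          (s + 2) * Nat.card (Sl (Fin s) K) := by
        refine (Set.ncard_le_ncard (Set.subset_univ _) (Set.toFinite _)).trans ?_
        rw [Set.ncard_univ, Nat.card_prod, Nat.card_eq_fintype_card (α := Fin (s + 2)),
          Fintype.card_fin]
      have h3 := Nat.mul_le_mul_left (4 * K + 15) h1
      refine (Set.ncard_union_le L1 Q).trans ?_
      refine (Nat.add_le_add hc1 (hc2.trans h3)).trans (le_of_eq ?_)
      ring

end Pool.Agent.H88.PG
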