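import Pool.Agent.H88.PG.Circ

/-!
# Rules for the number of occupied holes
-/

set_option autoImplicit false

namespace Pool.Agent.H88.PG

open FirstOrder FirstOrder.Language Pool.H93.SY Pool.H31.SY Pool.H31.PH Pool.Agent.H88.SY
open scoped Pointwise

variable {ψ : phpL.Sentence} {s n K : ℕ}

/-- A number below `s + 2`. -/
def fz (s x : ℕ) : Fin (s + 2) := ⟨x % (s + 2), Nat.mod_lt _ (by omega)⟩

theorem fz_val {s x : ℕ} (h : x ≤ s + 1) : (fz s x).val = x := Nat.mod_eq_of_lt (by omega)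

theorem pre_fz {s x : ℕ} (h : x ≤ s) : pre (fz s (x + 1)) = fz s x := by
  apply Fin.ext
  show (fz s (x + 1)).val - 1 = (fz s x).val
  rw [fz_val (by omega), fz_val (by omega)]
  omega

/-- Exactly `N` of the first `j` holes are occupied. -/
def tl (ψ : phpL.Sentence) (s n K : ℕ) (j N : ℕ) : Lit (FN ψ s n K) :=
  ⟨new (.T (fz s j) (fz s N)), false⟩

/-- It is not true that exactly `N` of the first `j` holes are occupied. -/
def tn (ψ : phpL.Sentence) (s n K : ℕ) (j N : ℕ) : Lit (FN ψ s n K) :=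
  ⟨new (.T (fz s j) (fz s N)), true⟩

/-- The hole is occupied (`b = false`) or empty (`b = true`). -/
def zl (ψ : phpL.Sentence) {s : ℕ} (n K : ℕ) (v : Fin s) (b : Bool) : Lit (FN ψ s n K) :=
  ⟨old (.z (Sum.inl v)), b⟩

theorem ncard_pair_le {α : Type} (a b : α) : ({a, b} : Set α).ncard ≤ 2 := by
  refine (Set.ncard_insert_le _ _).trans ?_
  rw [Set.ncard_singleton]

/-- A signed node which is fixed by the permutations. -/
def Fl (x : Lit (FN ψ s n K)) : Prop := ∀ σ : Equiv.Perm (Fin n), σ • x = x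

theorem fl_tl (j N : ℕ) : Fl (tl ψ s n K j N) := fun _ => rfl

theorem fl_tn (j N : ℕ) : Fl (tn ψ s n K j N) := fun _ => rfl

theorem fl_zl (v : Fin s) (b : Bool) : Fl (zl ψ n K v b) := fun _ => rfl

theorem fl_new (a : Xn s K) (b : Bool) : Fl (⟨new a, b⟩ : Lit (FN ψ s n K)) := fun _ => rfl

variable [HasSits ψ] {m : ℕ}

theorem fx_of {Γ : Set (Lit (FN ψ s n K))} (h : ∀ x ∈ Γ, Fl x) :
    Fx (C := fc ψ m s n K) Γ := fun σ => fixed_set σ fun x hx => h x hx σ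

theorem fx_insert {Γ : Set (Lit (FN ψ s n K))} {x : Lit (FN ψ s n K)} (hx : Fl x)
    (h : Fx (C := fc ψ m s n K) Γ) : Fx (C := fc ψ m s n K) (insert x Γ) := by
  intro σ
  have h1 : σ • (insert x Γ : Set (Lit (FN ψ s n K))) = insert (σ • x) (σ • Γ) :=
    Set.smul_set_insert ..
  have h2 : σ • Γ = Γ := h σ
  show σ • (insert x Γ : Set (Lit (FN ψ s n K))) = insert x Γ
  rw [h1, h2, hx σ]

theorem fx_singleton {x : Lit (FN ψ s n K)} (hx : Fl x) : Fx (C := fc ψ m s n K) {x} :=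
  fx_of (by
    intro y hy
    obtain rfl : y = x := hy
    exact hx)

theorem fx_union {Γ Δ : Set (Lit (FN ψ s n K))} (h : Fx (C := fc ψ m s n K) Γ)
    (h' : Fx (C := fc ψ m s n K) Δ) : Fx (C := fc ψ m s n K) (Γ ∪ Δ) := by
  intro σ
  have h1 : σ • (Γ ∪ Δ : Set (Lit (FN ψ s n K))) = σ • Γ ∪ σ • Δ := Set.smul_set_union
  have h2 : σ • Γ = Γ := h σ
  have h3 : σ • Δ = Δ := h' σ
  show σ • (Γ ∪ Δ : Set (Lit (FN ψ s n K))) = Γ ∪ Δ
  rw [h1, h2, h3]

theorem gate_T0 : (fc ψ m s n K).gate (new (.T (fz s 0) (fz s 0)) : FN ψ s n K) =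
    .and {(⟨new .tt, false⟩ : Lit (FN ψ s n K))} := by
  show gf m (Sum.inr (Xn.T (fz s 0) (fz s 0)) : FN ψ s n K) = _
  unfold gf
  simp only [fz_val (Nat.zero_le _), if_true]
  rfl

theorem gate_T0' {N : ℕ} (h : 0 < N) (hN : N ≤ s + 1) :
    (fc ψ m s n K).gate (new (.T (fz s 0) (fz s N)) : FN ψ s n K) = .and ∅ := by
  show gf m (Sum.inr (Xn.T (fz s 0) (fz s N)) : FN ψ s n K) = _
  unfold gf
  simp only [fz_val (Nat.zero_le _), fz_val hN, if_true, if_neg h.ne']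
  rfl

theorem gate_T {j N : ℕ} (hj : j ≤ s) (hN : N ≤ s + 1) :
    (fc ψ m s n K).gate (new (.T (fz s (j + 1)) (fz s N)) : FN ψ s n K) =
      .and {x : Lit (FN ψ s n K) |
        (N ≠ 0 ∧ x = ⟨new (.a true (fz s j) (fz s (N - 1))), false⟩) ∨
        x = ⟨new (.a false (fz s j) (fz s N)), false⟩} := by
  show gf m (Sum.inr (Xn.T (fz s (j + 1)) (fz s N)) : FN ψ s n K) = _
  unfold gf
  have h1 : (fz s (j + 1)).val ≠ 0 := by
    rw [fz_val (by omega)]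
    omega
  simp only [if_neg h1, pre_fz hj, fz_val hN]
  congr 1
  ext x
  show (N ≠ 0 ∧ x = _) ∨ _ ↔ (N ≠ 0 ∧ x = _) ∨ _
  apply or_congr _ Iff.rfl
  refine and_congr_right fun h2 => ?_
  obtain ⟨N', rfl⟩ : ∃ N', N = N' + 1 := ⟨N - 1, by omega⟩
  rw [pre_fz (by omega), Nat.add_sub_cancel]

theorem gate_a {j N : ℕ} (c : Bool) (hj : j < s) :
    (fc ψ m s n K).gate (new (.a c (fz s j) (fz s N)) : FN ψ s n K) =
      .and {tl ψ s n K j N, zl ψ n K ⟨j, hj⟩ (!c)} := by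
  show gf m (Sum.inr (Xn.a c (fz s j) (fz s N)) : FN ψ s n K) = _
  unfold gf
  have h1 : (fz s j).val < s := by
    rw [fz_val (by omega)]
    exact hj
  simp only [dif_pos h1]
  have h2 : (⟨(fz s j).val, h1⟩ : Fin s) = ⟨j, hj⟩ := Fin.ext (fz_val (by omega))
  rw [h2]
  rfl

variable {D : Set (Atom phpL (Fin s ⊕ Fin n) × Bool)} {Ls : Set (Set (Lit (FN ψ s n K)))}

theorem tau_zero (hg : GoodD ψ D (fc ψ m s n K) Ls) :
    DR ψ D (C := fc ψ m s n K) Ls 2 {tl ψ s n K 0 0} := by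
  refine DR.andE (C := fc ψ m s n K) (S := {(⟨new .tt, false⟩ : Lit (FN ψ s n K))})
    (a := (new (.T (fz s 0) (fz s 0)) : FN ψ s n K)) hg gate_T0 rfl
    (fx_singleton (fl_tl 0 0)) ?_
  refine DR.andI0 (C := fc ψ m s n K) (a := (new .tt : FN ψ s n K)) hg rfl ?_ ?_
  · exact Or.inr ⟨_, rfl, rfl⟩
  · refine fx_union (fx_singleton (fl_tl 0 0)) (fx_of ?_)
    rintro _ ⟨x, hx, rfl⟩
    obtain rfl : x = _ := hx
    exact fl_new _ _

theorem tau_zero' {N : ℕ} (hN0 : 0 < N) (hN : N ≤ s + 1)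
    (hg : GoodD ψ D (fc ψ m s n K) Ls) {Γ : Set (Lit (FN ψ s n K))}
    (hΓ : Fx (C := fc ψ m s n K) Γ) (hm : tn ψ s n K 0 N ∈ Γ) :
    DR ψ D (C := fc ψ m s n K) Ls 1 Γ :=
  DR.andI0 (C := fc ψ m s n K) (a := (new (.T (fz s 0) (fz s N)) : FN ψ s n K)) hg
    (gate_T0' hN0 hN) hm hΓ

/-- Identity. -/
theorem dr_ident (hg : GoodD ψ D (fc ψ m s n K) Ls) {Γ : Set (Lit (FN ψ s n K))}
    (a : FN ψ s n K) (h1 : (⟨a, true⟩ : Lit (FN ψ s n K)) ∈ Γ)
    (h2 : (⟨a, false⟩ : Lit (FN ψ s n K)) ∈ Γ) (hΓ : Fx (C := fc ψ m s n K) Γ) :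
    DR ψ D (C := fc ψ m s n K) Ls 1 Γ :=
  DR.ident (C := fc ψ m s n K) (a := a) (b := a) hg rfl h1 h2 hΓ

/-- An occupied hole. -/
theorem tau_occ {j N : ℕ} (hj : j < s) (hN : N ≤ s) (hg : GoodD ψ D (fc ψ m s n K) Ls) :
    DR ψ D (C := fc ψ m s n K) Ls 4
      {tn ψ s n K j N, zl ψ n K ⟨j, hj⟩ true, tl ψ s n K (j + 1) (N + 1)} := by
  have hfx : Fx (C := fc ψ m s n K)
      {tn ψ s n K j N, zl ψ n K ⟨j, hj⟩ true, tl ψ s n K (j + 1) (N + 1)} :=
    fx_insert (fl_tn _ _) (fx_insert (fl_zl _ _) (fx_singleton (fl_tl _ _)))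
  have hS := gate_T (ψ := ψ) (m := m) (n := n) (K := K) hj.le (show N + 1 ≤ s + 1 by omega)
  refine DR.andE (C := fc ψ m s n K)
    (a := (new (.T (fz s (j + 1)) (fz s (N + 1))) : FN ψ s n K)) hg hS
    (Or.inr (Or.inr rfl)) hfx ?_
  have hfx2 : Fx (C := fc ψ m s n K)
      ({tn ψ s n K j N, zl ψ n K ⟨j, hj⟩ true, tl ψ s n K (j + 1) (N + 1)} ∪
        Lit.neg '' {x : Lit (FN ψ s n K) |
        (N + 1 ≠ 0 ∧ x = ⟨new (.a true (fz s j) (fz s (N + 1 - 1))), false⟩) ∨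
        x = ⟨new (.a false (fz s j) (fz s (N + 1))), false⟩}) := by
    refine fx_union hfx (fx_of ?_)
    rintro _ ⟨x, (⟨-, rfl⟩ | rfl), rfl⟩
    · exact fl_new _ _
    · exact fl_new _ _
  refine (DR.andI' (C := fc ψ m s n K) (r := 1) (k := 2)
    (a := (new (.a true (fz s j) (fz s N)) : FN ψ s n K)) hg (gate_a true hj)
    (ncard_pair_le _ _) ?_ hfx2 ?_).mono (by omega)
  · refine Or.inr ⟨_, Or.inl ⟨by omega, rfl⟩, ?_⟩
    rw [Nat.add_sub_cancel]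
    rfl
  · rintro x (rfl | rfl)
    · refine dr_ident hg (new (.T (fz s j) (fz s N))) (Or.inr (Or.inl (Or.inl rfl)))
        (Or.inl rfl) (fx_insert (fl_tl _ _) hfx2)
    · refine dr_ident hg (old (.z (Sum.inl ⟨j, hj⟩))) (Or.inr (Or.inl (Or.inr (Or.inl rfl))))
        (Or.inl rfl) (fx_insert (fl_zl _ _) hfx2)

/-- An empty hole. -/
theorem tau_emp {j N : ℕ} (hj : j < s) (hN : N ≤ s + 1) (hg : GoodD ψ D (fc ψ m s n K) Ls) :
    DR ψ D (C := fc ψ m s n K) Ls 4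
      {tn ψ s n K j N, zl ψ n K ⟨j, hj⟩ false, tl ψ s n K (j + 1) N} := by
  have hfx : Fx (C := fc ψ m s n K)
      {tn ψ s n K j N, zl ψ n K ⟨j, hj⟩ false, tl ψ s n K (j + 1) N} :=
    fx_insert (fl_tn _ _) (fx_insert (fl_zl _ _) (fx_singleton (fl_tl _ _)))
  have hS := gate_T (ψ := ψ) (m := m) (n := n) (K := K) hj.le hN
  refine DR.andE (C := fc ψ m s n K)
    (a := (new (.T (fz s (j + 1)) (fz s N)) : FN ψ s n K)) hg hS
    (Or.inr (Or.inr rfl)) hfx ?_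
  have hfx2 : Fx (C := fc ψ m s n K)
      ({tn ψ s n K j N, zl ψ n K ⟨j, hj⟩ false, tl ψ s n K (j + 1) N} ∪
        Lit.neg '' {x : Lit (FN ψ s n K) |
        (N ≠ 0 ∧ x = ⟨new (.a true (fz s j) (fz s (N - 1))), false⟩) ∨
        x = ⟨new (.a false (fz s j) (fz s N)), false⟩}) := by
    refine fx_union hfx (fx_of ?_)
    rintro _ ⟨x, (⟨-, rfl⟩ | rfl), rfl⟩
    · exact fl_new _ _
    · exact fl_new _ _
  refine (DR.andI' (C := fc ψ m s n K) (r := 1) (k := 2)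
    (a := (new (.a false (fz s j) (fz s N)) : FN ψ s n K)) hg (gate_a false hj)
    (ncard_pair_le _ _) ?_ hfx2 ?_).mono (by omega)
  · exact Or.inr ⟨_, Or.inr rfl, rfl⟩
  · rintro x (rfl | rfl)
    · refine dr_ident hg (new (.T (fz s j) (fz s N))) (Or.inr (Or.inl (Or.inl rfl)))
        (Or.inl rfl) (fx_insert (fl_tl _ _) hfx2)
    · refine dr_ident hg (old (.z (Sum.inl ⟨j, hj⟩))) (Or.inl rfl)
        (Or.inr (Or.inl (Or.inr (Or.inl rfl)))) (fx_insert (fl_zl _ _) hfx2)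

/-- Case distinction. -/
theorem tau_elim {j N r : ℕ} (hj : j < s) (hN : N ≤ s + 1) (hg : GoodD ψ D (fc ψ m s n K) Ls)
    {Γ : Set (Lit (FN ψ s n K))} (hΓ : Fx (C := fc ψ m s n K) Γ)
    (h1 : N ≠ 0 → DR ψ D (C := fc ψ m s n K) Ls r
      (insert (tn ψ s n K j (N - 1)) (insert (zl ψ n K ⟨j, hj⟩ true) Γ)))
    (h2 : DR ψ D (C := fc ψ m s n K) Ls r
      (insert (tn ψ s n K j N) (insert (zl ψ n K ⟨j, hj⟩ false) Γ))) :
    DR ψ D (C := fc ψ m s n K) Ls (2 * r + 5) (insert (tn ψ s n K (j + 1) N) Γ) := by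
  have hS := gate_T (ψ := ψ) (m := m) (n := n) (K := K) hj.le hN
  have hfx : Fx (C := fc ψ m s n K) (insert (tn ψ s n K (j + 1) N) Γ) :=
    fx_insert (fl_tn _ _) hΓ
  refine (DR.andI' (C := fc ψ m s n K) (r := r + 2) (k := 2)
    (a := (new (.T (fz s (j + 1)) (fz s N)) : FN ψ s n K)) hg hS ?_ (Or.inl rfl) hfx ?_).mono
    (by omega)
  · refine (Set.ncard_le_ncard (t := {(⟨new (.a true (fz s j) (fz s (N - 1))), false⟩ :
      Lit (FN ψ s n K)), ⟨new (.a false (fz s j) (fz s N)), false⟩}) ?_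
      (Set.toFinite _)).trans (ncard_pair_le _ _)
    rintro x (⟨-, rfl⟩ | rfl)
    · exact Or.inl rfl
    · exact Or.inr rfl
  · rintro x (⟨hN0, rfl⟩ | rfl)
    · refine DR.andE (C := fc ψ m s n K) (r := r + 1)
        (a := (new (.a true (fz s j) (fz s (N - 1))) : FN ψ s n K)) hg (gate_a true hj)
        (Or.inl rfl) (fx_insert (fl_new _ _) hfx) ?_
      refine DR.weak (C := fc ψ m s n K) hg (h1 hN0) ?_ ?_
      · refine fx_union (fx_insert (fl_new _ _) hfx) (fx_of ?_)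
        rintro _ ⟨x, (rfl | rfl), rfl⟩
        · exact fl_tn _ _
        · exact fl_zl _ _
      · rintro x (rfl | rfl | hx)
        · exact Or.inr ⟨_, Or.inl rfl, rfl⟩
        · exact Or.inr ⟨_, Or.inr rfl, rfl⟩
        · exact Or.inl (Or.inr (Or.inr hx))
    · refine DR.andE (C := fc ψ m s n K) (r := r + 1)
        (a := (new (.a false (fz s j) (fz s N)) : FN ψ s n K)) hg (gate_a false hj)
        (Or.inl rfl) (fx_insert (fl_new _ _) hfx) ?_
      refine DR.weak (C := fc ψ m s n K) hg h2 ?_ ?_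
      · refine fx_union (fx_insert (fl_new _ _) hfx) (fx_of ?_)
        rintro _ ⟨x, (rfl | rfl), rfl⟩
        · exact fl_tn _ _
        · exact fl_zl _ _
      · rintro x (rfl | rfl | hx)
        · exact Or.inr ⟨_, Or.inl rfl, rfl⟩
        · exact Or.inr ⟨_, Or.inr rfl, rfl⟩
        · exact Or.inl (Or.inr (Or.inr hx))

end Pool.Agent.H88.PG
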