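import Pool.Agent.H88.PG.Occ
import Pool.Agent.H31.PH.Comb

/-!
# Matchings and their holes
-/

set_option autoImplicit false

namespace Pool.Agent.H88.PG

open FirstOrder FirstOrder.Language Pool.H93.SY Pool.H31.SY Pool.H31.PH Pool.Agent.H88.SY
open scoped Pointwise

variable {ψ : phpL.Sentence} {s n K : ℕ}

/-- The holes of a matching. -/
def hs (h : Sl (Ed s n) K) : Sl (Fin s) K :=
  ⟨h.set.image (fun e => e.2), Finset.card_image_le.trans h.card⟩

theorem mem_hs {h : Sl (Ed s n) K} {t : Fin s} : t ∈ (hs h).set ↔ ∃ e ∈ h.set, e.2 = t :=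
  Finset.mem_image

theorem hs_smul (σ : Equiv.Perm (Fin n)) (h : Sl (Ed s n) K) : hs (σ • h) = hs h := by
  apply Sl.ext
  ext t
  rw [mem_hs, mem_hs]
  constructor
  · rintro ⟨e, he, h2⟩
    obtain ⟨f, hf, rfl⟩ := mem_smul_sl.1 he
    exact ⟨f, hf, h2⟩
  · rintro ⟨e, he, h2⟩
    exact ⟨σ • e, mem_smul_sl.2 ⟨e, he, rfl⟩, h2⟩

theorem card_hs {h : Sl (Ed s n) K} (hm : Mt h.set) : (hs h).set.card = h.set.card := by
  apply Finset.card_image_of_injOn
  intro e he e' he' heq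
  apply en_inj hm false he he'
  show (Sum.inl e.2 : Fin s ⊕ Fin n) = Sum.inl e'.2
  exact congrArg Sum.inl heq

theorem mem_ha_hs {h : Sl (Ed s n) K} (hm : Mt h.set) : h ∈ HA (vb n (hs h)).set := by
  refine ⟨?_, hm, ?_⟩
  · rw [card_vb, card_hs hm]
  · intro v hv
    obtain ⟨t, ht, rfl⟩ := mem_vb.1 hv
    obtain ⟨e, he, rfl⟩ := mem_hs.1 ht
    exact ⟨e, he, false, rfl⟩

/-- The matching is present (`b = true`) or not. -/
def Ml (ψ : phpL.Sentence) (h : Sl (Ed s n) K) (b : Bool) : Lit (FN ψ s n K) := ⟨old (.M h), b⟩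

/-- The gate: the matching is not present. -/
def m0l (ψ : phpL.Sentence) (h : Sl (Ed s n) K) : Lit (FN ψ s n K) := ⟨old (.m0 h), true⟩

/-- The conjunction of the gates. -/
def p0l (ψ : phpL.Sentence) (n : ℕ) (i : Fin (K + 1)) (j : Fin (s + 2)) (B : Sl (Fin s) K) :
    Lit (FN ψ s n K) := ⟨new (.p0 i j B), true⟩

/-- The lines. -/
def FZ (ψ : phpL.Sentence) {s n K : ℕ} :
    Fin 8 × Fin (K + 1) × Fin (s + 2) × Sl (Fin s) K × Sl (Ed s n) K → Set (Lit (FN ψ s n K))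
  | (0, _, _, B, h) => {yl ψ n (hs h) true, yl ψ n B true, Ml ψ h false}
  | (1, _, _, B, h) => {yl ψ n (hs h) false, yl ψ n B true, Ml ψ h false}
  | (2, _, _, B, h) => {yl ψ n B true, Ml ψ h false}
  | (3, _, _, B, h) => {Ml ψ h true, yl ψ n B true, m0l ψ h}
  | (4, _, _, B, h) => {Ml ψ h false, yl ψ n B true, m0l ψ h}
  | (5, _, _, B, h) => {yl ψ n B true, m0l ψ h}
  | (6, i, j, B, h) => {m0l ψ h, yl ψ n B true, p0l ψ n i j B}
  | (7, i, j, B, _) => {yl ψ n B true, p0l ψ n i j B}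

/-- The condition. -/
def JZ (s n K : ℕ) : Set (Fin 8 × Fin (K + 1) × Fin (s + 2) × Sl (Fin s) K × Sl (Ed s n) K) :=
  {x | (x.1 = 7 ∧ ∀ t ∈ x.2.2.2.1.set, x.2.2.1.val ≤ t.val) ∨
    (x.1 ≠ 7 ∧ Mt x.2.2.2.2.set ∧ x.2.2.2.1.set ⊆ (hs x.2.2.2.2).set)}

theorem smul_pair (σ : Equiv.Perm (Fin n)) (x y : Lit (FN ψ s n K)) :
    σ • ({x, y} : Set (Lit (FN ψ s n K))) = {σ • x, σ • y} := by
  rw [Set.smul_set_insert, Set.smul_set_singleton]

theorem smul_triple (σ : Equiv.Perm (Fin n)) (x y z : Lit (FN ψ s n K)) :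
    σ • ({x, y, z} : Set (Lit (FN ψ s n K))) = {σ • x, σ • y, σ • z} := by
  rw [Set.smul_set_insert, smul_pair]

theorem FZ_smul (σ : Equiv.Perm (Fin n)) (k : Fin 8) (i : Fin (K + 1)) (j : Fin (s + 2))
    (B : Sl (Fin s) K) (h : Sl (Ed s n) K) :
    FZ ψ (k, i, j, B, σ • h) = σ • FZ ψ (k, i, j, B, h) := by
  have e1 : ∀ b, σ • Ml ψ h b = Ml ψ (σ • h) b := fun _ => rfl
  have e2 : σ • m0l ψ h = m0l ψ (σ • h) := rfl
  have e3 : ∀ (B : Sl (Fin s) K) b, σ • yl ψ n B b = yl ψ n B b := fun B b => fl_yl B b σ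
  have e4 : σ • p0l ψ n i j B = p0l ψ n i j B := rfl
  match k with
  | 0 =>
    show {yl ψ n (hs (σ • h)) true, yl ψ n B true, Ml ψ (σ • h) false} = σ • _
    unfold FZ
    rw [smul_triple, e3, e3, e1, hs_smul]
  | 1 =>
    show {yl ψ n (hs (σ • h)) false, yl ψ n B true, Ml ψ (σ • h) false} = σ • _
    unfold FZ
    rw [smul_triple, e3, e3, e1, hs_smul]
  | 2 =>
    unfold FZ
    rw [smul_pair, e3, e1]
  | 3 =>
    unfold FZ
    rw [smul_triple, e3, e1, e2]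
  | 4 =>
    unfold FZ
    rw [smul_triple, e3, e1, e2]
  | 5 =>
    unfold FZ
    rw [smul_pair, e3, e2]
  | 6 =>
    unfold FZ
    rw [smul_triple, e3, e2, e4]
  | 7 =>
    unfold FZ
    rw [smul_pair, e3, e4]

variable [HasSits ψ] {m : ℕ}
variable {D : Set (Atom phpL (Fin s ⊕ Fin n) × Bool)} {Ls : Set (Set (Lit (FN ψ s n K)))}

theorem zero_lines (hg : GoodD ψ D (fc ψ m s n K) Ls)
    (h1 : ∀ h : Sl (Ed s n) K, Mt h.set → {yl ψ n (hs h) true, Ml ψ h false} ∈ Ls)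
    (h2 : ∀ B B' : Sl (Fin s) K, B'.set ⊆ B.set → {yl ψ n B false, yl ψ n B' true} ∈ Ls) :
    ∃ Ls' : Set (Set (Lit (FN ψ s n K))), GoodD ψ D (fc ψ m s n K) Ls' ∧ Ls ⊆ Ls' ∧
      (∀ (B : Sl (Fin s) K) (h : Sl (Ed s n) K), Mt h.set → B.set ⊆ (hs h).set →
        {yl ψ n B true, Ml ψ h false} ∈ Ls') ∧
      (∀ (i : Fin (K + 1)) (j : Fin (s + 2)) (B : Sl (Fin s) K), (∀ t ∈ B.set, j.val ≤ t.val) →
        {yl ψ n B true, p0l ψ n i j B} ∈ Ls') ∧
      Ls'.ncard ≤ Ls.ncard + 8 * ((K + 1) * ((s + 2) * (Nat.card (Sl (Fin s) K) *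
        Nat.card (Sl (Ed s n) K)))) := by
  have key : GoodD ψ D (fc ψ m s n K) (Ls ∪ FZ ψ '' JZ s n K) := by
    refine goodD_family (C := fc ψ m s n K) (FZ ψ) (JZ s n K) (fun x => x.1.val) hg ?_ ?_
    · rintro σ ⟨k, i, j, B, h⟩ hx
      refine ⟨(k, i, j, B, σ • h), ?_, FZ_smul σ k i j B h⟩
      rcases hx with ⟨hk, hB⟩ | ⟨hk, hm, hB⟩
      · exact Or.inl ⟨hk, hB⟩
      · refine Or.inr ⟨hk, (mt_smul σ).2 hm, ?_⟩
        show B.set ⊆ (hs (σ • h)).set
        rw [hs_smul]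
        exact hB
    · rintro ⟨k, i, j, B, h⟩ hx
      have lt : ∀ a b : Fin 8, a.val < b.val → a.val < b.val := fun _ _ h => h
      match k with
      | 0 =>
        rcases hx with ⟨hk, -⟩ | ⟨-, hm, hB⟩
        · exact absurd hk (show (0 : Fin 8) ≠ 7 by decide)
        refine .weak (Or.inl (h1 h hm)) ?_
        rintro x (rfl | rfl)
        · exact Or.inl rfl
        · exact Or.inr (Or.inr rfl)
      | 1 =>
        rcases hx with ⟨hk, -⟩ | ⟨-, hm, hB⟩
        · exact absurd hk (show (1 : Fin 8) ≠ 7 by decide)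
        refine .weak (Or.inl (h2 (hs h) B hB)) ?_
        rintro x (rfl | rfl)
        · exact Or.inl rfl
        · exact Or.inr (Or.inl rfl)
      | 2 =>
        rcases hx with ⟨hk, -⟩ | ⟨-, hm, hB⟩
        · exact absurd hk (show (2 : Fin 8) ≠ 7 by decide)
        refine .cut (a := (old (.y (vb n (hs h))) : FN ψ s n K))
          (Or.inr ⟨(0, i, j, B, h), Or.inr ⟨(show (0 : Fin 8) ≠ 7 by decide), hm, hB⟩, ?_, rfl⟩)
          (Or.inr ⟨(1, i, j, B, h), Or.inr ⟨(show (1 : Fin 8) ≠ 7 by decide), hm, hB⟩, ?_, rfl⟩)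
        · show (0 : ℕ) < 2
          norm_num
        · show (1 : ℕ) < 2
          norm_num
      | 3 =>
        exact .zero (a := (old (.m0 h) : FN ψ s n K)) (x := Ml ψ h true)
          (congrArg (Gate.mod 0) (Set.image_singleton)) (Or.inl rfl) (Or.inr (Or.inr rfl))
      | 4 =>
        rcases hx with ⟨hk, -⟩ | ⟨-, hm, hB⟩
        · exact absurd hk (show (4 : Fin 8) ≠ 7 by decide)
        refine .weak (Δ := {yl ψ n B true, Ml ψ h false})
          (Or.inr ⟨(2, i, j, B, h), Or.inr ⟨(show (2 : Fin 8) ≠ 7 by decide), hm, hB⟩, ?_, rfl⟩) ?_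
        · show (2 : ℕ) < 4
          norm_num
        · rintro x (rfl | rfl)
          · exact Or.inr (Or.inl rfl)
          · exact Or.inl rfl
      | 5 =>
        rcases hx with ⟨hk, -⟩ | ⟨-, hm, hB⟩
        · exact absurd hk (show (5 : Fin 8) ≠ 7 by decide)
        refine .cut (a := (old (.M h) : FN ψ s n K))
          (Or.inr ⟨(3, i, j, B, h), Or.inr ⟨(show (3 : Fin 8) ≠ 7 by decide), hm, hB⟩, ?_, rfl⟩)
          (Or.inr ⟨(4, i, j, B, h), Or.inr ⟨(show (4 : Fin 8) ≠ 7 by decide), hm, hB⟩, ?_, rfl⟩)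
        · show (3 : ℕ) < 5
          norm_num
        · show (4 : ℕ) < 5
          norm_num
      | 6 =>
        rcases hx with ⟨hk, -⟩ | ⟨-, hm, hB⟩
        · exact absurd hk (show (6 : Fin 8) ≠ 7 by decide)
        refine .weak (Δ := {yl ψ n B true, m0l ψ h})
          (Or.inr ⟨(5, i, j, B, h), Or.inr ⟨(show (5 : Fin 8) ≠ 7 by decide), hm, hB⟩, ?_, rfl⟩) ?_
        · show (5 : ℕ) < 6
          norm_num
        · rintro x (rfl | rfl)
          · exact Or.inr (Or.inl rfl)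
          · exact Or.inl rfl
      | 7 =>
        rcases hx with ⟨-, hB⟩ | ⟨hk, -⟩
        · refine .andI (a := (new (.p0 i j B) : FN ψ s n K)) rfl (Or.inr rfl) ?_
          rintro _ ⟨g, ⟨hm, hc, hg2⟩, rfl⟩
          refine Or.inr ⟨(6, i, j, B, g), Or.inr ⟨(show (6 : Fin 8) ≠ 7 by decide), hm, ?_⟩, ?_, rfl⟩
          · intro t ht
            exact mem_hs.2 ((hg2 t (hB t ht)).2 ht)
          · show (6 : ℕ) < 7
            norm_num
        · exact absurd rfl hk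
  refine ⟨_, key, Set.subset_union_left, ?_, ?_, ?_⟩
  · intro B h hm hB
    exact Or.inr ⟨(2, 0, 0, B, h), Or.inr ⟨(show (2 : Fin 8) ≠ 7 by decide), hm, hB⟩, rfl⟩
  · intro i j B hB
    exact Or.inr ⟨(7, i, j, B, ⟨∅, Nat.zero_le _⟩), Or.inl ⟨rfl, hB⟩, rfl⟩
  · refine (Set.ncard_union_le _ _).trans (Nat.add_le_add_left ?_ _)
    refine (ncard_family (C := fc ψ m s n K) (FZ ψ) (JZ s n K)).trans (le_of_eq ?_)
    rw [Nat.card_prod, Nat.card_prod, Nat.card_prod, Nat.card_prod,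
      Nat.card_eq_fintype_card (α := Fin 8), Nat.card_eq_fintype_card (α := Fin (K + 1)),
      Nat.card_eq_fintype_card (α := Fin (s + 2)), Fintype.card_fin, Fintype.card_fin,
      Fintype.card_fin]

end Pool.Agent.H88.PG
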