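import Pool.Agent.H88.PG.Zer

/-!
# Counting the matchings by their last holes
-/

set_option autoImplicit false

namespace Pool.Agent.H88.PG

open FirstOrder FirstOrder.Language Pool.H93.SY Pool.H31.SY Pool.H31.PH Pool.Agent.H88.SY
open scoped Pointwise

variable {ψ : phpL.Sentence} {s n K : ℕ}

/-- The gate: the number of the matchings of size `i` with last holes `B` is as expected. -/
def zgl (ψ : phpL.Sentence) (n : ℕ) (i : Fin (K + 1)) (j : ℕ) (B : Sl (Fin s) K)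
    (o : Option ℕ) : Lit (FN ψ s n K) :=
  ⟨new (.zg i (fz s j) B (o.map (fz s))), true⟩

/-- The expected number. -/
def cn (i : ℕ) (B : Finset (Fin s)) : Option ℕ → ℕ
  | none => 0
  | some N => if B.card ≤ i then N.choose (i - B.card) else 0

theorem cf_map (i : ℕ) (B : Finset (Fin s)) {o : Option ℕ} (ho : ∀ N, o = some N → N ≤ s + 1) :
    cf i B (o.map (fz s)) = cn i B o := by
  cases o with
  | none => rfl
  | some N =>
    show (if B.card ≤ i then (fz s N).val.choose (i - B.card) else 0) = _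
    rw [fz_val (ho N rfl)]
    rfl

/-- The signed nodes of the matchings with last holes `B`. -/
def zs (ψ : phpL.Sentence) (n K : ℕ) (i j : ℕ) (B : Finset (Fin s)) : Set (Lit (FN ψ s n K)) :=
  {x | ∃ h : Sl (Ed s n) K, Zc i j B h ∧ x = Ml ψ h true}

theorem fl_zgl (i : Fin (K + 1)) (j : ℕ) (B : Sl (Fin s) K) (o : Option ℕ) :
    Fl (zgl ψ n i j B o) := fun _ => rfl

variable [HasSits ψ] {m : ℕ}

theorem gate_zg (i : Fin (K + 1)) {j : ℕ} (hj : j ≤ s + 1) (B : Sl (Fin s) K) {o : Option ℕ}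
    (ho : ∀ N, o = some N → N ≤ s + 1) :
    gf m (new (.zg i (fz s j) B (o.map (fz s))) : FN ψ s n K) =
      .mod ((cn i.val B.set o : ℕ) : ZMod m) (zs ψ n K i.val j B.set) := by
  show Gate.mod ((cf i.val B.set (o.map (fz s)) : ℕ) : ZMod m) {x : Lit (FN ψ s n K) |
    ∃ h : Sl (Ed s n) K, Zc i.val (fz s j).val B.set h ∧ x = ⟨old (.M h), true⟩} = _
  rw [cf_map _ _ ho, fz_val hj]
  rfl

variable {D : Set (Atom phpL (Fin s ⊕ Fin n) × Bool)} {Ls : Set (Set (Lit (FN ψ s n K)))}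

theorem st_sum {P : Set (Set (Lit (FN ψ s n K)))} {Γ : Set (Lit (FN ψ s n K))}
    {a p : FN ψ s n K} {T : Set (FN ψ s n K)} {c : FN ψ s n K → ZMod m}
    {S : FN ψ s n K → Set (Lit (FN ψ s n K))} (h1 : ∀ b ∈ T, gf m b = .mod (c b) (S b))
    (h2 : T.PairwiseDisjoint S)
    (h3 : gf m p = .and ((fun b => (⟨b, true⟩ : Lit (FN ψ s n K))) '' T))
    (h4 : gf m a = .mod (∑ᶠ b ∈ T, c b) (⋃ b ∈ T, S b))
    (h5 : (⟨p, false⟩ : Lit (FN ψ s n K)) ∈ Γ) (h6 : (⟨a, true⟩ : Lit (FN ψ s n K)) ∈ Γ) :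
    Step ψ D (fc ψ m s n K) P Γ :=
  .sum (C := fc ψ m s n K) h1 h2 h3 h4 h5 h6

omit [HasSits ψ] in
theorem Ml_inj {h h' : Sl (Ed s n) K} {b : Bool} (e : Ml ψ h b = Ml ψ h' b) : h = h' := by
  have h1 : (old (.M h) : FN ψ s n K) = old (.M h') := congrArg Lit.node e
  have h2 := old_injective h1
  injection h2

/-- The sets of the gates `m0`. -/
def sm (ψ : phpL.Sentence) (s n K : ℕ) : FN ψ s n K → Set (Lit (FN ψ s n K))
  | Sum.inl (.m0 h) => {Ml ψ h true}
  | _ => ∅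

/-- If none of the matchings is present, their number is zero. -/
theorem sum_zero (hg : GoodD ψ D (fc ψ m s n K) Ls) {Γ : Set (Lit (FN ψ s n K))}
    (hΓ : Fx (C := fc ψ m s n K) Γ) {i : Fin (K + 1)} {j : ℕ} (hj : j ≤ s + 1)
    {B : Sl (Fin s) K} {o : Option ℕ} (ho : ∀ N, o = some N → N ≤ s + 1)
    (hc : cn i.val B.set o = 0) (h1 : (⟨new (.p0 i (fz s j) B), false⟩ : Lit (FN ψ s n K)) ∈ Γ)
    (h2 : zgl ψ n i j B o ∈ Γ) : DR ψ D (C := fc ψ m s n K) Ls 1 Γ := by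
  refine DR.step0 (C := fc ψ m s n K) hg hΓ ?_
  refine st_sum (a := (new (.zg i (fz s j) B (o.map (fz s))) : FN ψ s n K))
    (p := (new (.p0 i (fz s j) B) : FN ψ s n K))
    (T := {x : FN ψ s n K | ∃ h : Sl (Ed s n) K, Zc i.val j B.set h ∧ x = old (.m0 h)})
    (c := fun _ => 0) (S := sm ψ s n K) ?_ ?_ ?_ ?_ h1 h2
  · rintro _ ⟨h, -, rfl⟩
    exact congrArg (Gate.mod 0) (Set.image_singleton)
  · rintro _ ⟨h, -, rfl⟩ _ ⟨h', -, rfl⟩ hne
    show Disjoint ({Ml ψ h true} : Set (Lit (FN ψ s n K))) {Ml ψ h' true}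
    rw [Set.disjoint_singleton]
    intro e
    exact hne (by rw [Ml_inj e])
  · show Gate.and {x : Lit (FN ψ s n K) | ∃ h : Sl (Ed s n) K, Zc i.val (fz s j).val B.set h ∧
      x = ⟨old (.m0 h), true⟩} = _
    rw [fz_val hj]
    refine congrArg Gate.and ?_
    ext x
    constructor
    · rintro ⟨h, hh, rfl⟩
      exact ⟨_, ⟨h, hh, rfl⟩, rfl⟩
    · rintro ⟨_, ⟨h, hh, rfl⟩, rfl⟩
      exact ⟨h, hh, rfl⟩
  · rw [gate_zg i hj B ho, hc, Nat.cast_zero, finsum_mem_zero]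
    refine congrArg (Gate.mod 0) ?_
    ext x
    rw [Set.mem_iUnion₂]
    constructor
    · rintro ⟨h, hh, rfl⟩
      exact ⟨_, ⟨h, hh, rfl⟩, rfl⟩
    · rintro ⟨_, ⟨h, hh, rfl⟩, hx⟩
      have hx' : x = Ml ψ h true := hx
      exact ⟨h, hh, hx'⟩

/-- If there are no such matchings, their number is zero. -/
theorem zg_none (hg : GoodD ψ D (fc ψ m s n K) Ls) {Γ : Set (Lit (FN ψ s n K))}
    (hΓ : Fx (C := fc ψ m s n K) Γ) {i : Fin (K + 1)} {j : ℕ} (hj : j ≤ s + 1)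
    {B : Sl (Fin s) K} {o : Option ℕ} (ho : ∀ N, o = some N → N ≤ s + 1)
    (hc : cn i.val B.set o = 0) (he : ∀ h : Sl (Ed s n) K, ¬ Zc i.val j B.set h)
    (h2 : zgl ψ n i j B o ∈ Γ) : DR ψ D (C := fc ψ m s n K) Ls 3 Γ := by
  refine DR.cut (C := fc ψ m s n K) (r := 1) (r' := 1) hg
    (new (.p0 i (fz s j) B) : FN ψ s n K) ?_ ?_ hΓ
  · have h := DR.andI (C := fc ψ m s n K) (r := 0) (ψ := ψ) (D := D) (Ls := Ls)
      (Γ := insert (p0l ψ n i (fz s j) B) Γ)
      (S := {x : Lit (FN ψ s n K) | ∃ h : Sl (Ed s n) K, Zc i.val (fz s j).val B.set h ∧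
        x = ⟨old (.m0 h), true⟩}) (a := (new (.p0 i (fz s j) B) : FN ψ s n K)) hg rfl (Or.inl rfl)
      (fx_insert (fl_new _ _) hΓ) (by
        rintro _ ⟨h, hh, rfl⟩
        rw [fz_val hj] at hh
        exact absurd hh (he h))
    exact h.mono (by omega)
  · exact sum_zero hg (fx_insert (fl_new _ _) hΓ) hj ho hc (Or.inl rfl) (Or.inr h2)

/-- If `B` is not occupied, the number of the matchings which use `B` is zero. -/
theorem zg_zero (hg : GoodD ψ D (fc ψ m s n K) Ls) {Γ : Set (Lit (FN ψ s n K))}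
    (hΓ : Fx (C := fc ψ m s n K) Γ) {i : Fin (K + 1)} {j : ℕ} (hj : j ≤ s + 1)
    {B : Sl (Fin s) K} (hl : {yl ψ n B true, p0l ψ n i (fz s j) B} ∈ Ls)
    (h1 : yl ψ n B true ∈ Γ) (h2 : zgl ψ n i j B none ∈ Γ) :
    DR ψ D (C := fc ψ m s n K) Ls 3 Γ := by
  refine DR.cut (C := fc ψ m s n K) (r := 1) (r' := 1) hg
    (new (.p0 i (fz s j) B) : FN ψ s n K) ?_ ?_ hΓ
  · refine DR.weak (C := fc ψ m s n K) (r := 0) hg (DR.base (C := fc ψ m s n K) hg hl)
      (fx_insert (fl_new _ _) hΓ) ?_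
    rintro x (rfl | rfl)
    · exact Or.inr h1
    · exact Or.inl rfl
  · exact sum_zero hg (fx_insert (fl_new _ _) hΓ) hj (fun N h => by cases h) rfl (Or.inl rfl)
      (Or.inr h2)

/-- The residues and the sets of the gates `zg`. -/
noncomputable def cz (ψ : phpL.Sentence) (m s n K : ℕ) : FN ψ s n K → ZMod m
  | Sum.inr (.zg i _ B o) => ((cf i.val B.set o : ℕ) : ZMod m)
  | _ => 0

/-- The sets of the gates `zg`. -/
def sz (ψ : phpL.Sentence) (s n K : ℕ) : FN ψ s n K → Set (Lit (FN ψ s n K))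
  | Sum.inr (.zg i j B _) => zs ψ n K i.val j.val B.set
  | _ => ∅

/-- The matchings which use the hole `j` and those which do not. -/
theorem sum_pair (hg : GoodD ψ D (fc ψ m s n K) Ls) {Γ : Set (Lit (FN ψ s n K))}
    (hΓ : Fx (C := fc ψ m s n K) Γ) {i : Fin (K + 1)} {j : ℕ} (hj : j < s)
    {B B' : Sl (Fin s) K} (hB : ∀ t ∈ B.set, j + 1 ≤ t.val)
    (hB' : ∀ t : Fin s, t ∈ B'.set ↔ t = ⟨j, hj⟩ ∨ t ∈ B.set) {N N' : ℕ} (hN : N ≤ s + 1)
    (hN' : N' ≤ s + 1) {o : Option ℕ} (ho : ∀ N, o = some N → N ≤ s + 1)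
    (hc : cn i.val B.set (some N') = cn i.val B.set (some N) + cn i.val B'.set o)
    (h1 : (⟨new (.pr i (fz s j) B B' (fz s N) (o.map (fz s))), false⟩ : Lit (FN ψ s n K)) ∈ Γ)
    (h2 : zgl ψ n i (j + 1) B (some N') ∈ Γ) : DR ψ D (C := fc ψ m s n K) Ls 1 Γ := by
  have hjB : (⟨j, hj⟩ : Fin s) ∉ B.set := fun h => by
    have h3 : j + 1 ≤ j := hB _ h
    omega
  have hjB' : (⟨j, hj⟩ : Fin s) ∈ B'.set := (hB' _).2 (Or.inl rfl)
  have hne : (new (.zg i (fz s j) B (some (fz s N))) : FN ψ s n K) ≠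
      new (.zg i (fz s j) B' (o.map (fz s))) := by
    intro e
    have e1 := Sum.inr_injective e
    injection e1 with _ _ e2
    rw [e2] at hjB
    exact hjB hjB'
  have hv : (fz s j).val = j := fz_val (by omega)
  refine DR.step0 (C := fc ψ m s n K) hg hΓ ?_
  refine st_sum
    (a := (new (.zg i (fz s (j + 1)) B ((some N').map (fz s))) : FN ψ s n K))
    (p := (new (.pr i (fz s j) B B' (fz s N) (o.map (fz s))) : FN ψ s n K))
    (T := {(new (.zg i (fz s j) B (some (fz s N))) : FN ψ s n K),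
      new (.zg i (fz s j) B' (o.map (fz s)))})
    (c := cz ψ m s n K) (S := sz ψ s n K) ?_ ?_ ?_ ?_ h1 h2
  · rintro b (rfl | rfl)
    · rfl
    · rfl
  · have hdis : Disjoint (zs ψ n K i.val (fz s j).val B.set) (zs ψ n K i.val (fz s j).val B'.set) := by
      rw [Set.disjoint_left, hv]
      rintro _ ⟨h, ⟨-, -, h3⟩, rfl⟩ ⟨h', ⟨-, -, h4⟩, e⟩
      obtain rfl := Ml_inj e
      exact hjB ((h3 ⟨j, hj⟩ le_rfl).1 ((h4 ⟨j, hj⟩ le_rfl).2 hjB'))
    rintro b (rfl | rfl) b' (rfl | rfl) hbb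
    · exact absurd rfl hbb
    · exact hdis
    · exact hdis.symm
    · exact absurd rfl hbb
  · rw [Set.image_pair]
    rfl
  · rw [gate_zg i (by omega) B (fun N h => by
      injection h with h
      omega), finsum_mem_pair hne, Set.biUnion_pair]
    have e1 : cz ψ m s n K (new (.zg i (fz s j) B (some (fz s N)))) =
        ((cn i.val B.set (some N) : ℕ) : ZMod m) := by
      show ((cf i.val B.set ((some N).map (fz s)) : ℕ) : ZMod m) = _
      rw [cf_map _ _ (fun N h => by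
        injection h with h
        omega)]
    have e2 : cz ψ m s n K (new (.zg i (fz s j) B' (o.map (fz s)))) =
        ((cn i.val B'.set o : ℕ) : ZMod m) := by
      show ((cf i.val B'.set (o.map (fz s)) : ℕ) : ZMod m) = _
      rw [cf_map _ _ ho]
    rw [e1, e2, hc, Nat.cast_add]
    refine congrArg (Gate.mod _) ?_
    show zs ψ n K i.val (j + 1) B.set = zs ψ n K i.val (fz s j).val B.set ∪
      zs ψ n K i.val (fz s j).val B'.set
    rw [hv]
    ext x
    constructor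
    · rintro ⟨h, ⟨h3, h4, h5⟩, rfl⟩
      by_cases hu : ∃ e ∈ h.set, e.2 = (⟨j, hj⟩ : Fin s)
      · refine Or.inr ⟨h, ⟨h3, h4, fun t ht => ?_⟩, rfl⟩
        rw [hB']
        rcases Nat.eq_or_lt_of_le ht with h6 | h6
        · have h7 : t = ⟨j, hj⟩ := Fin.ext h6.symm
          rw [h7]
          exact ⟨fun _ => Or.inl rfl, fun _ => hu⟩
        · rw [h5 t h6]
          constructor
          · exact Or.inr
          · rintro (h7 | h7)
            · exact absurd (congrArg Fin.val h7) (by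
                show t.val ≠ j
                omega)
            · exact h7
      · refine Or.inl ⟨h, ⟨h3, h4, fun t ht => ?_⟩, rfl⟩
        rcases Nat.eq_or_lt_of_le ht with h6 | h6
        · have h7 : t = ⟨j, hj⟩ := Fin.ext h6.symm
          rw [h7]
          exact ⟨fun h => absurd h hu, fun h => absurd h hjB⟩
        · exact h5 t h6
    · rintro (⟨h, ⟨h3, h4, h5⟩, rfl⟩ | ⟨h, ⟨h3, h4, h5⟩, rfl⟩)
      · exact ⟨h, ⟨h3, h4, fun t ht => h5 t (by omega)⟩, rfl⟩
      · refine ⟨h, ⟨h3, h4, fun t ht => ?_⟩, rfl⟩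
        rw [h5 t (by omega), hB']
        constructor
        · rintro (h7 | h7)
          · exact absurd (congrArg Fin.val h7) (by
              show t.val ≠ j
              omega)
          · exact h7
        · exact Or.inr

end Pool.Agent.H88.PG
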